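import Mathlib

/-!
Abstract staircase lemmas: a self-Galois map with distinct nonzero values is a staircase.
-/

set_option autoImplicit false

namespace H43R3.SumG

variable {T : ℕ → ℕ} {l n E : ℕ}

theorem stair_mono
    (sym : ∀ i k, l ≤ i → i ≤ n → l ≤ k → k ≤ n → (k ≤ T i ↔ i ≤ T k))
    {i i' : ℕ} (h : l ≤ i) (hii : i ≤ i') (hn : i' ≤ n) (hT : l ≤ T i') :
    min (T i') n ≤ T i := by
  have hk1 : l ≤ min (T i') n := le_min hT (by omega)
  have hk2 : min (T i') n ≤ n := min_le_right _ _
  have h1 : i' ≤ T (min (T i') n) := (sym i' _ (by omega) hn hk1 hk2).1 (min_le_left _ _)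
  exact (sym i _ h (by omega) hk1 hk2).2 (by omega)

theorem stair_step (hl : 1 ≤ l)
    (sym : ∀ i k, l ≤ i → i ≤ n → l ≤ k → k ≤ n → (k ≤ T i ↔ i ≤ T k))
    (inj : ∀ i i', l ≤ i → i ≤ n → l ≤ i' → i' ≤ n → T i = T i' → T i ≠ 0 → i = i')
    {i : ℕ} (hi : l ≤ i) (hi1 : i + 1 ≤ n) (h1 : l ≤ T (i+1)) (h2 : T (i+1) + 2 ≤ n) :
    T i = T (i+1) + 1 := by
  have hm := stair_mono sym hi (by omega : i ≤ i + 1) hi1 h1
  rw [min_eq_left (by omega)] at hm
  have hne : T i ≠ T (i+1) := fun h => by
    have := inj i (i+1) hi (by omega) (by omega) hi1 h (by omega)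
    omega
  by_contra hcon
  have hge : T (i+1) + 2 ≤ T i := by omega
  have hk : i ≤ T (T (i+1) + 1) := (sym i _ hi (by omega) (by omega) (by omega)).1 (by omega)
  have hk' : i ≤ T (T (i+1) + 1 + 1) := (sym i _ hi (by omega) (by omega) (by omega)).1 (by omega)
  have hn : ¬ (i + 1 ≤ T (T (i+1) + 1)) := fun h => by
    have := (sym (i+1) _ (by omega) hi1 (by omega) (by omega)).2 h
    omega
  have hn' : ¬ (i + 1 ≤ T (T (i+1) + 1 + 1)) := fun h => by
    have := (sym (i+1) _ (by omega) hi1 (by omega) (by omega)).2 h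
    omega
  have := inj (T (i+1) + 1) (T (i+1) + 1 + 1) (by omega) (by omega) (by omega) (by omega)
    (by omega) (by omega)
  omega

theorem stair_low
    (sym : ∀ i k, l ≤ i → i ≤ n → l ≤ k → k ≤ n → (k ≤ T i ↔ i ≤ T k))
    (low : ((Finset.Icc l n).filter (fun i => T i < l)).card ≤ E)
    {i : ℕ} (hi : l ≤ i) (hiE : i + E ≤ n) : l ≤ T i := by
  by_contra hcon
  push Not at hcon
  have hsub : Finset.Icc i n ⊆ (Finset.Icc l n).filter (fun i => T i < l) := by
    intro j hj
    rw [Finset.mem_Icc] at hj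
    rw [Finset.mem_filter, Finset.mem_Icc]
    refine ⟨by omega, ?_⟩
    by_contra hj2
    push Not at hj2
    have := stair_mono sym hi hj.1 hj.2 hj2
    have h3 : l ≤ min (T j) n := le_min hj2 (by omega)
    omega
  have := Finset.card_le_card hsub
  rw [Nat.card_Icc] at this
  omega

theorem stair_up (hl : 1 ≤ l)
    (sym : ∀ i k, l ≤ i → i ≤ n → l ≤ k → k ≤ n → (k ≤ T i ↔ i ≤ T k))
    (inj : ∀ i i', l ≤ i → i ≤ n → l ≤ i' → i' ≤ n → T i = T i' → T i ≠ 0 → i = i')
    (low : ((Finset.Icc l n).filter (fun i => T i < l)).card ≤ E)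
    {i : ℕ} (hi : l ≤ i) (hiE : i + E ≤ n) (hE : l ≤ E + i) : l + n ≤ T i + E + i := by
  -- downward induction on n - E - i
  obtain ⟨d, hd⟩ : ∃ d, i + E + d = n := ⟨n - (i + E), by omega⟩
  induction d generalizing i with
  | zero =>
    have := stair_low sym low hi hiE
    omega
  | succ d ih =>
    have h1 := ih (i := i + 1) (by omega) (by omega) (by omega) (by omega)
    have hlow := stair_low sym low (i := i+1) (by omega) (by omega)
    have hm := stair_mono sym hi (by omega : i ≤ i + 1) (by omega) hlow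
    rcases le_or_gt n (T (i+1)) with h2 | h2
    · rw [min_eq_right h2] at hm
      omega
    · rw [min_eq_left h2.le] at hm
      have hne : T i ≠ T (i+1) := fun h => by
        have := inj i (i+1) hi (by omega) (by omega) (by omega) h (by omega)
        omega
      omega

theorem stair_lin (hl : 1 ≤ l)
    (sym : ∀ i k, l ≤ i → i ≤ n → l ≤ k → k ≤ n → (k ≤ T i ↔ i ≤ T k))
    (inj : ∀ i i', l ≤ i → i ≤ n → l ≤ i' → i' ≤ n → T i = T i' → T i ≠ 0 → i = i')
    (low : ((Finset.Icc l n).filter (fun i => T i < l)).card ≤ E)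
    {s : ℕ} (hs : l ≤ s) (hT : ∀ i, s ≤ i → i + E ≤ n → T i + 1 ≤ n) :
    ∀ i, s ≤ i → i + E ≤ n → T i + i = T s + s := by
  intro i hi
  induction i, hi using Nat.le_induction with
  | base => intro _; rfl
  | succ i hi ih =>
    intro hiE
    have h1 := ih (by omega)
    have hlow := stair_low sym low (i := i+1) (by omega) (by omega)
    have hm := stair_mono sym (i := i) (by omega) (by omega : i ≤ i + 1) (by omega) hlow
    have h3 := hT (i+1) (by omega) hiE
    rw [min_eq_left (by omega)] at hm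
    have hne : T i ≠ T (i+1) := fun h => by
      have := inj i (i+1) (by omega) (by omega) (by omega) (by omega) h (by omega)
      omega
    have h4 := hT i hi (by omega)
    have := stair_step hl sym inj (i := i) (by omega) (by omega) hlow (by omega)
    omega

end H43R3.SumG
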