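import Mathlib
import Pool.Agent.H43R3.SumG.Stair

/-!
Step A: a robustly rigid part of a half graph labelled inside a set `L` with few exits.
-/

set_option autoImplicit false

namespace H43R3.SumG

structure Core (τ e : ℕ) (X : ℕ → ℚ) (L : Set ℚ) : Prop where
  pos : ∀ i, 1 ≤ i → i < 8*τ → 0 < X i
  inj : ∀ i j, 1 ≤ i → i < 8*τ → 1 ≤ j → j < 8*τ → X i = X j → i = j
  uu : ∀ i j, 1 ≤ i → i < 8*τ → 1 ≤ j → j < 8*τ → i ≠ j → (X i + X j ∈ L ↔ i + j ≤ 8*τ)
  nh : ∀ w ∈ L, ∀ k, 5 ≤ k → k < 6*τ-4 → w + X k ∈ L → ∃ a, 1 ≤ a ∧ a < 8*τ ∧ w = X a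
  nh2 : ∀ w ∈ L, ∀ k, 1 ≤ k → k < 8*τ → w + X k ∈ L → w + X (6*τ) ∉ L →
    w + X (6*τ-3) ∉ L → w + X (6*τ-4) ∉ L → ∃ a, 1 ≤ a ∧ a < 8*τ ∧ w = X a
  ex : ∀ j, 1 ≤ j → j < 8*τ → ∀ S : Finset ℕ,
    (∀ i ∈ S, 1 ≤ i ∧ i < 8*τ ∧ i ≠ j ∧ X i + X j ∈ L ∧
      ∀ a, 1 ≤ a → a < 8*τ → X i + X j ≠ X a) → S.card ≤ e

variable {τ e : ℕ} {X : ℕ → ℚ} {L : Set ℚ}

theorem Core.count (h : Core τ e X L) {j : ℕ} (hj : 1 ≤ j) (hj' : j < 8*τ) (G : Finset ℕ)
    (hG : ∀ a, 1 ≤ a → a < 8*τ → X j < X a → a ∈ G) : 8*τ ≤ j + 1 + e + G.card := by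
  classical
  obtain ⟨Q, hQ⟩ : ∃ Q : ℕ → Prop, ∀ i, Q i ↔ ∃ a, 1 ≤ a ∧ a < 8*τ ∧ X i + X j = X a :=
    ⟨_, fun _ => Iff.rfl⟩
  set S := (Finset.Icc 1 (8*τ - j)).erase j with hS
  have hScard : 8*τ - j - 1 ≤ S.card := by
    have := Finset.pred_card_le_card_erase (s := Finset.Icc 1 (8*τ - j)) (a := j)
    rw [Nat.card_Icc, ← hS] at this
    omega
  have hsum : (S.filter Q).card + (S.filter (fun i => ¬ Q i)).card = S.card :=
    Finset.card_filter_add_card_filter_not _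
  have h1 : (S.filter (fun i => ¬ Q i)).card ≤ e := by
    refine h.ex j hj hj' _ ?_
    intro i hi
    rw [Finset.mem_filter, hS, Finset.mem_erase, Finset.mem_Icc] at hi
    refine ⟨hi.1.2.1, by omega, hi.1.1, ?_, ?_⟩
    · exact (h.uu i j hi.1.2.1 (by omega) hj hj' hi.1.1).2 (by omega)
    · intro a ha ha' heq
      exact hi.2 ((hQ i).2 ⟨a, ha, ha', heq⟩)
  have h2 : (S.filter Q).card ≤ G.card := by
    have key : ∀ i ∈ S.filter Q, ∃ a, 1 ≤ a ∧ a < 8*τ ∧ X i + X j = X a := by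
      intro i hi
      rw [Finset.mem_filter] at hi
      exact (hQ i).1 hi.2
    choose! f hf using key
    refine Finset.card_le_card_of_injOn f ?_ ?_
    · intro i hi
      have hi' : i ∈ S.filter Q := hi
      obtain ⟨h1, h2, h3⟩ := hf i hi'
      rw [Finset.mem_filter, hS, Finset.mem_erase, Finset.mem_Icc] at hi'
      refine hG _ h1 h2 ?_
      have := h.pos i hi'.1.2.1 (by omega)
      rw [← h3]; linarith
    · intro i hi i' hi' hii
      have hi1 : i ∈ S.filter Q := hi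
      have hi1' : i' ∈ S.filter Q := hi'
      obtain ⟨h1, h2, h3⟩ := hf i hi1
      obtain ⟨h1', h2', h3'⟩ := hf i' hi1'
      rw [Finset.mem_filter, hS, Finset.mem_erase, Finset.mem_Icc] at hi1 hi1'
      refine h.inj i i' hi1.1.2.1 (by omega) hi1'.1.2.1 (by omega) ?_
      have : X i + X j = X i' + X j := by rw [h3, h3', hii]
      linarith
  omega

theorem exists_top (X : ℕ → ℚ) (U : Finset ℕ) (hinj : ∀ i ∈ U, ∀ j ∈ U, X i = X j → i = j)
    (Y : ℕ) (hY : Y ≤ U.card) :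
    ∃ P ⊆ U, P.card = Y ∧ ∀ a ∈ P, ∀ b ∈ U, b ∉ P → X b < X a := by
  classical
  induction Y with
  | zero => exact ⟨∅, by simp, by simp, by simp⟩
  | succ Y ih =>
    obtain ⟨P, hPU, hPc, hP⟩ := ih (by omega)
    have hne : (U \ P).Nonempty := by
      rw [← Finset.card_pos, Finset.card_sdiff_of_subset hPU]
      omega
    obtain ⟨m, hm, hmax⟩ := Finset.exists_max_image (U \ P) X hne
    rw [Finset.mem_sdiff] at hm
    refine ⟨insert m P, ?_, ?_, ?_⟩
    · intro x hx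
      rw [Finset.mem_insert] at hx
      rcases hx with rfl | hx
      · exact hm.1
      · exact hPU hx
    · rw [Finset.card_insert_of_notMem hm.2, hPc]
    · intro a ha b hb hbn
      rw [Finset.mem_insert] at ha
      rw [Finset.mem_insert] at hbn
      push Not at hbn
      rcases ha with rfl | ha
      · have h1 := hmax b (Finset.mem_sdiff.2 ⟨hb, hbn.2⟩)
        rcases lt_or_eq_of_le h1 with h2 | h2
        · exact h2
        · exact absurd (hinj b hb a hm.1 h2) hbn.1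
      · exact hP a ha b hb hbn.2

open Classical in
noncomputable def Tf (τ : ℕ) (X : ℕ → ℚ) (j i : ℕ) : ℕ :=
  if h : ∃ a, 1 ≤ a ∧ a < 8*τ ∧ X i + X j = X a then 8*τ - Classical.choose h else 0

theorem Core.Tf_eq (h : Core τ e X L) {i j a : ℕ} (h1 : 1 ≤ a) (h2 : a < 8*τ)
    (h3 : X i + X j = X a) : Tf τ X j i = 8*τ - a := by
  have hex : ∃ a, 1 ≤ a ∧ a < 8*τ ∧ X i + X j = X a := ⟨a, h1, h2, h3⟩
  have hc := Classical.choose_spec hex
  have : Classical.choose hex = a :=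
    h.inj _ _ hc.1 hc.2.1 h1 h2 (by rw [← hc.2.2, h3])
  unfold Tf
  rw [dif_pos hex, this]

theorem Tf_pos {i j : ℕ} (h : Tf τ X j i ≠ 0) :
    1 ≤ 8*τ - Tf τ X j i ∧ 8*τ - Tf τ X j i < 8*τ ∧ X i + X j = X (8*τ - Tf τ X j i) ∧
      Tf τ X j i < 8*τ := by
  unfold Tf at h ⊢
  by_cases hex : ∃ a, 1 ≤ a ∧ a < 8*τ ∧ X i + X j = X a
  · rw [dif_pos hex] at h ⊢
    have hc := Classical.choose_spec hex
    have he : 8*τ - (8*τ - Classical.choose hex) = Classical.choose hex := by omega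
    rw [he]
    exact ⟨hc.1, hc.2.1, hc.2.2, by omega⟩
  · rw [dif_neg hex] at h
    exact absurd rfl h

/-- `j` is high: all indices with larger labels are in the upper half, and so is `j`. -/
structure High (τ : ℕ) (X : ℕ → ℚ) (j : ℕ) : Prop where
  lo : 4*τ+2 ≤ j
  hi : j < 8*τ
  up : ∀ a, 1 ≤ a → a < 8*τ → X j < X a → 4*τ+2 ≤ a

theorem Core.tri (h : Core τ e X L) (hτ : 10 ≤ τ) {j : ℕ} (hj : High τ X j) {i k : ℕ}
    (hi : 5 ≤ i) (hi' : i ≤ 8*τ - j) (hk : 5 ≤ k) (hk' : k ≤ 8*τ - j) :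
    k ≤ Tf τ X j i ↔ X i + X j + X k ∈ L := by
  have hjl := hj.lo
  have hjh := hj.hi
  by_cases hex : ∃ a, 1 ≤ a ∧ a < 8*τ ∧ X i + X j = X a
  · obtain ⟨a, h1, h2, h3⟩ := hex
    have hpos := h.pos i (by omega) (by omega)
    have ha := hj.up a h1 h2 (by rw [← h3]; linarith)
    rw [h.Tf_eq h1 h2 h3, h3, h.uu a k h1 h2 (by omega) (by omega) (by omega)]
    omega
  · have hz : Tf τ X j i = 0 := by unfold Tf; rw [dif_neg hex]
    rw [hz]
    constructor
    · intro h; omega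
    · intro hL
      exfalso
      apply hex
      have hm : X i + X j ∈ L :=
        (h.uu i j (by omega) (by omega) (by omega) hjh (by omega)).2 (by omega)
      obtain ⟨a, h1, h2, h3⟩ := h.nh _ hm k hk (by omega) hL
      exact ⟨a, h1, h2, h3⟩

theorem Core.high_sym (h : Core τ e X L) (hτ : 10 ≤ τ) {j : ℕ} (hj : High τ X j) :
    ∀ i k, 5 ≤ i → i ≤ 8*τ - j → 5 ≤ k → k ≤ 8*τ - j →
      (k ≤ Tf τ X j i ↔ i ≤ Tf τ X j k) := by
  intro i k hi hi' hk hk'
  rw [h.tri hτ hj hi hi' hk hk', h.tri hτ hj hk hk' hi hi']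
  rw [show X i + X j + X k = X k + X j + X i by ring]

theorem Core.high_inj (h : Core τ e X L) {j : ℕ} (hj : High τ X j) :
    ∀ i i', 5 ≤ i → i ≤ 8*τ - j → 5 ≤ i' → i' ≤ 8*τ - j →
      Tf τ X j i = Tf τ X j i' → Tf τ X j i ≠ 0 → i = i' := by
  intro i i' hi hi2 hi' hi2' heq hne
  have hjl := hj.lo
  have h1 := Tf_pos hne
  have h2 := Tf_pos (heq ▸ hne : Tf τ X j i' ≠ 0)
  refine h.inj i i' (by omega) (by omega) (by omega) (by omega) ?_
  have : X i + X j = X i' + X j := by rw [h1.2.2.1, h2.2.2.1, heq]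
  linarith

theorem Core.high_low (h : Core τ e X L) {j : ℕ} (hj : High τ X j) :
    ((Finset.Icc 5 (8*τ - j)).filter (fun i => Tf τ X j i < 5)).card ≤ e + 4 := by
  classical
  have hjl := hj.lo
  have hjh := hj.hi
  set F := (Finset.Icc 5 (8*τ - j)).filter (fun i => Tf τ X j i < 5) with hF
  have hsum : (F.filter (fun i => Tf τ X j i = 0)).card
      + (F.filter (fun i => ¬ Tf τ X j i = 0)).card = F.card :=
    Finset.card_filter_add_card_filter_not _
  have h1 : (F.filter (fun i => Tf τ X j i = 0)).card ≤ e := by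
    refine h.ex j (by omega) hjh _ ?_
    intro i hi
    rw [Finset.mem_filter, hF, Finset.mem_filter, Finset.mem_Icc] at hi
    refine ⟨by omega, by omega, by omega, ?_, ?_⟩
    · exact (h.uu i j (by omega) (by omega) (by omega) hjh (by omega)).2 (by omega)
    · intro a ha ha' heq
      have := h.Tf_eq ha ha' heq
      omega
  have h2 : (F.filter (fun i => ¬ Tf τ X j i = 0)).card ≤ 4 := by
    have : (F.filter (fun i => ¬ Tf τ X j i = 0)).card ≤ (Finset.Ico 1 5).card := by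
      refine Finset.card_le_card_of_injOn (Tf τ X j) ?_ ?_
      · intro i hi
        have hi' := Finset.mem_coe.1 hi
        rw [Finset.mem_filter, hF, Finset.mem_filter, Finset.mem_Icc] at hi'
        rw [Finset.mem_coe, Finset.mem_Ico]
        omega
      · intro i hi i' hi' heq
        have hi1 := Finset.mem_coe.1 hi
        have hi2 := Finset.mem_coe.1 hi'
        rw [Finset.mem_filter, hF, Finset.mem_filter, Finset.mem_Icc] at hi1 hi2
        exact h.high_inj hj i i' hi1.1.1.1 hi1.1.1.2 hi2.1.1.1 hi2.1.1.2 heq hi1.2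
    simpa using this
  omega

end H43R3.SumG
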