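import Mathlib
import Pool.Agent.H43R3.SumG.StepA

/-!
Step A (continued): records, shifts.
-/

set_option autoImplicit false

namespace H43R3.SumG

variable {τ e : ℕ} {X : ℕ → ℚ} {L : Set ℚ}

structure Rec (τ e : ℕ) (X : ℕ → ℚ) (P : Finset ℕ) (j0 δ : ℕ) : Prop where
  P_hi : ∀ j ∈ P, High τ X j
  P_up : ∀ j ∈ P, ∀ a, 1 ≤ a → a < 8*τ → X j < X a → a ∈ P
  P_min : ∀ j ∈ P, j0 ≤ j
  j0P : j0 ∈ P
  n_lo : j0 ≤ 4*τ + e + 2
  shift : ∀ i, 5 ≤ i → i + (e+4) ≤ 8*τ - j0 → X i + X j0 = X (i+δ) ∧ i + δ + 5 ≤ 8*τ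
  δlo : j0 ≤ δ + 4
  δhi : δ + 5 ≤ j0 + (e+4)

theorem Core.exists_rec (h : Core τ e X L) (hτ : 100*(e+10) ≤ τ) :
    ∃ P j0 δ, Rec τ e X P j0 δ := by
  classical
  obtain ⟨P, hPU, hPc, hP⟩ := exists_top X (Finset.Ico 1 (8*τ))
    (by
      intro i hi j hj
      rw [Finset.mem_Ico] at hi hj
      exact h.inj i j hi.1 hi.2 hj.1 hj.2) (4*τ - e - 2) (by rw [Nat.card_Ico]; omega)
  have hUp : ∀ j ∈ P, ∀ a, 1 ≤ a → a < 8*τ → X j < X a → a ∈ P := by
    intro j hj a ha ha' hlt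
    by_contra hn
    have := hP j hj a (Finset.mem_Ico.2 ⟨ha, ha'⟩) hn
    linarith
  have hlo : ∀ j ∈ P, 4*τ+2 ≤ j := by
    intro j hj
    have hjU := Finset.mem_Ico.1 (hPU hj)
    have := h.count hjU.1 hjU.2 (P.erase j) (by
      intro a ha ha' hlt
      rw [Finset.mem_erase]
      refine ⟨?_, hUp j hj a ha ha' hlt⟩
      rintro rfl
      exact lt_irrefl _ hlt)
    rw [Finset.card_erase_of_mem hj, hPc] at this
    omega
  have hHigh : ∀ j ∈ P, High τ X j := by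
    intro j hj
    have hjU := Finset.mem_Ico.1 (hPU hj)
    exact ⟨hlo j hj, hjU.2, fun a ha ha' hlt => hlo a (hUp j hj a ha ha' hlt)⟩
  have hne : P.Nonempty := by rw [← Finset.card_pos, hPc]; omega
  obtain ⟨j0, hj0P, hj0min⟩ : ∃ j0 ∈ P, ∀ j ∈ P, j0 ≤ j :=
    ⟨P.min' hne, Finset.min'_mem _ _, fun j hj => Finset.min'_le _ _ hj⟩
  have hj0 := hHigh j0 hj0P
  have hj0l := hj0.lo
  have hj0h := hj0.hi
  have hn : j0 ≤ 4*τ + e + 2 := by
    have hsub : P ⊆ Finset.Ico j0 (8*τ) := by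
      intro j hj
      rw [Finset.mem_Ico]
      exact ⟨hj0min j hj, (Finset.mem_Ico.1 (hPU hj)).2⟩
    have := Finset.card_le_card hsub
    rw [Nat.card_Ico, hPc] at this
    omega
  have hτ10 : 10 ≤ τ := by omega
  have sym := h.high_sym hτ10 hj0
  have inj := h.high_inj hj0
  have low := h.high_low hj0
  have hT : ∀ i, 5 ≤ i → i + (e+4) ≤ 8*τ - j0 → Tf τ X j0 i + 1 ≤ 8*τ - j0 := by
    intro i hi hi'
    by_cases hz : Tf τ X j0 i = 0
    · omega
    · obtain ⟨h1, h2, h3, h4⟩ := Tf_pos hz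
      have hpos := h.pos i (by omega) (by omega)
      have hm := hUp j0 hj0P _ h1 h2 (by rw [← h3]; linarith)
      have hge := hj0min _ hm
      have hne : 8*τ - Tf τ X j0 i ≠ j0 := by
        intro heq
        rw [heq] at h3
        linarith
      omega
  have hlin := stair_lin (by omega) sym inj low (le_refl 5) hT
  have hb1 := hT 5 (le_refl _) (by omega)
  have hb2 := stair_low sym low (i := 8*τ - j0 - (e+4)) (by omega) (by omega)
  have hb3 := hlin (8*τ - j0 - (e+4)) (by omega) (by omega)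
  refine ⟨P, j0, 8*τ - (Tf τ X j0 5 + 5), hHigh, hUp, hj0min, hj0P, hn, ?_, ?_, ?_⟩
  · intro i hi hi'
    have hl := hlin i hi hi'
    have hlow := stair_low sym low hi hi'
    obtain ⟨h1, h2, h3, h4⟩ := Tf_pos (τ := τ) (X := X) (j := j0) (i := i) (by omega)
    have heq : i + (8*τ - (Tf τ X j0 5 + 5)) = 8*τ - Tf τ X j0 i := by omega
    rw [heq]
    exact ⟨h3, by omega⟩
  · omega
  · omega


theorem Core.good (h : Core τ e X L) (hτ : 100*(e+10) ≤ τ) {P : Finset ℕ} {j0 δ : ℕ}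
    (hr : Rec τ e X P j0 δ) {i' : ℕ} (hi5 : 5 ≤ i') (hi'n : i' + (e+4) ≤ 8*τ - j0)
    (hpre : ∀ b, 5 ≤ b → b < i' → X b < X i')
    (hbase : 5 + (e+4) + (e+4) ≤ 8*τ - (i' + δ)) :
    (i' + δ ∈ P) ∧
    ∃ γ, ∀ i, 5 + (e+4) ≤ i → i + (e+4) ≤ 8*τ - (i' + δ) →
      X i + X (i' + δ) = X (i + γ) ∧ i' + δ + 1 ≤ i + γ ∧ i + γ + 5 ≤ 8*τ ∧
        i + γ + 5 ≤ i + (i' + δ) + (e + 4) := by
  classical
  have hδlo := hr.δlo
  have hδhi := hr.δhi
  have hj0h := hr.P_hi j0 hr.j0P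
  have hj0lo := hj0h.lo
  have hj0hi := hj0h.hi
  obtain ⟨hsh, hsh2⟩ := hr.shift i' hi5 hi'n
  have hposi' := h.pos i' (by omega) (by omega)
  have hjP : i' + δ ∈ P := hr.P_up j0 hr.j0P _ (by omega) (by omega) (by rw [← hsh]; linarith)
  refine ⟨hjP, ?_⟩
  have hH := hr.P_hi _ hjP
  have hHlo := hH.lo
  have hτ10 : 10 ≤ τ := by omega
  have sym := h.high_sym hτ10 hH
  have inj := h.high_inj hH
  have low := h.high_low hH
  -- bad set
  have hbad : ∀ i, 5 + (e+4) ≤ i → i ≤ 8*τ - (i' + δ) →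
      Tf τ X (i'+δ) i + 1 ≤ 8*τ - (i' + δ) := by
    intro i hi hin
    by_contra hcon
    push Not at hcon
    -- all of 5..i are bad
    have hall : ∀ k, 5 ≤ k → k ≤ i → 8*τ - (i' + δ) ≤ Tf τ X (i'+δ) k := by
      intro k hk hki
      have := stair_mono sym hk hki hin (by omega)
      rw [min_eq_right (by omega)] at this
      exact this
    have hval : ∀ k, 5 ≤ k → k ≤ i →
        8*τ - Tf τ X (i'+δ) k ∈ Finset.Ico j0 (5 + δ) := by
      intro k hk hki
      have h1 := hall k hk hki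
      obtain ⟨h2, h3, h4, h5⟩ := Tf_pos (τ := τ) (X := X) (j := i'+δ) (i := k) (by omega)
      have hposk := h.pos k (by omega) (by omega)
      have hm := hr.P_up _ hjP _ h2 h3 (by rw [← h4]; linarith)
      have hge := hr.P_min _ hm
      rw [Finset.mem_Ico]
      refine ⟨hge, ?_⟩
      by_contra hc2
      push Not at hc2
      have hne : 8*τ - Tf τ X (i'+δ) k ≠ i' + δ := by
        intro heq
        rw [heq] at h4
        linarith
      obtain ⟨b, hb⟩ : ∃ b, 8*τ - Tf τ X (i'+δ) k = b + δ := ⟨8*τ - Tf τ X (i'+δ) k - δ, by omega⟩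
      have hb5 : 5 ≤ b := by omega
      have hbi : b < i' := by omega
      have hs := (hr.shift b hb5 (by omega)).1
      rw [hb, ← hs, ← hsh] at h4
      have := hpre b hb5 hbi
      linarith
    have hcard : (Finset.Icc 5 i).card ≤ (Finset.Ico j0 (5 + δ)).card := by
      refine Finset.card_le_card_of_injOn (fun k => 8*τ - Tf τ X (i'+δ) k) ?_ ?_
      · intro k hk
        have hk' := Finset.mem_Icc.1 (Finset.mem_coe.1 hk)
        exact hval k hk'.1 hk'.2
      · intro k hk k' hk' heq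
        have hk1 := Finset.mem_Icc.1 (Finset.mem_coe.1 hk)
        have hk2 := Finset.mem_Icc.1 (Finset.mem_coe.1 hk')
        have a1 := hall k hk1.1 hk1.2
        have a2 := hall k' hk2.1 hk2.2
        obtain ⟨_, _, _, b1⟩ := Tf_pos (τ := τ) (X := X) (j := i'+δ) (i := k) (by omega)
        obtain ⟨_, _, _, b2⟩ := Tf_pos (τ := τ) (X := X) (j := i'+δ) (i := k') (by omega)
        simp only at heq
        exact inj k k' hk1.1 (by omega) hk2.1 (by omega) (by omega) (by omega)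
    rw [Nat.card_Icc, Nat.card_Ico] at hcard
    omega
  have hlin := stair_lin (s := 5 + (e+4)) (by omega) sym inj low (by omega)
    (fun i hi hi' => hbad i hi (by omega))
  have hb0 := hbad (5 + (e+4)) (le_refl _) (by omega)
  refine ⟨8*τ - (Tf τ X (i'+δ) (5 + (e+4)) + (5 + (e+4))), ?_⟩
  intro i hi hiE
  have hl := hlin i hi hiE
  have hlow := stair_low sym low (i := i) (by omega) hiE
  have hup := stair_up (by omega) sym inj low (i := i) (by omega) hiE (by omega)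
  have hb := hbad i hi (by omega)
  obtain ⟨h1, h2, h3, h4⟩ := Tf_pos (τ := τ) (X := X) (j := i'+δ) (i := i) (by omega)
  have heq : i + (8*τ - (Tf τ X (i'+δ) (5 + (e+4)) + (5 + (e+4)))) = 8*τ - Tf τ X (i'+δ) i := by
    omega
  rw [heq]
  exact ⟨h3, by omega, by omega, by omega⟩

end H43R3.SumG
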