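import Mathlib
import Pool.Agent.H43R3.SumG.StepA2

/-!
Step A (conclusion): an arithmetic progression on a long initial range.
-/

set_option autoImplicit false

namespace H43R3.SumG

variable {τ e : ℕ} {X : ℕ → ℚ} {L : Set ℚ}

theorem Core.stepA (h : Core τ e X L) (hτ : 100*(e+10) ≤ τ) :
    ∃ (c : ℚ) (κ : ℤ), 0 < c ∧ 1 - ((e:ℤ)+9) ≤ κ ∧ κ ≤ (e:ℤ)+9 ∧
      ∀ i : ℕ, e+9 ≤ i → i ≤ 4*τ - 3*e - 10 → X i = c * ((i:ℚ) + (κ:ℚ)) := by
  classical
  obtain ⟨P, j0, δ, hr⟩ := h.exists_rec hτ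
  have hδlo := hr.δlo
  have hδhi := hr.δhi
  have hj0h := hr.P_hi j0 hr.j0P
  have hj0lo := hj0h.lo
  have hj0hi := hj0h.hi
  have hn := hr.n_lo
  have hτ10 : 10 ≤ τ := by omega
  -- choose i0
  obtain ⟨i0, hi0m, hi0max⟩ := Finset.exists_max_image (Finset.Icc 5 (4*e+18)) X
    ⟨5, Finset.mem_Icc.2 ⟨le_refl _, by omega⟩⟩
  rw [Finset.mem_Icc] at hi0m
  have hpre : ∀ b, 5 ≤ b → b < i0 → X b < X i0 := by
    intro b hb hbi
    rcases lt_or_eq_of_le (hi0max b (Finset.mem_Icc.2 ⟨hb, by omega⟩)) with h1 | h1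
    · exact h1
    · have := h.inj b i0 (by omega) (by omega) (by omega) (by omega) h1
      omega
  have hsh0 := (hr.shift i0 hi0m.1 (by omega))
  have hi0lo : 2*e + 14 ≤ i0 := by
    have hposi := h.pos i0 (by omega) (by omega)
    have hP0 : i0 + δ ∈ P := hr.P_up j0 hr.j0P _ (by omega) (by omega)
      (by rw [← hsh0.1]; linarith)
    have := h.count (j := i0 + δ) (by omega) (by omega)
      ((Finset.Ico j0 (8*τ)) \ (Finset.Icc (5+δ) (4*e+18+δ))) (by
        intro a ha ha' hlt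
        rw [Finset.mem_sdiff, Finset.mem_Ico, Finset.mem_Icc]
        refine ⟨⟨hr.P_min _ (hr.P_up _ hP0 a ha ha' hlt), ha'⟩, ?_⟩
        rintro ⟨h1, h2⟩
        obtain ⟨b, rfl⟩ : ∃ b, a = b + δ := ⟨a - δ, by omega⟩
        have hs := (hr.shift b (by omega) (by omega)).1
        have := hi0max b (Finset.mem_Icc.2 ⟨by omega, by omega⟩)
        rw [← hs, ← hsh0.1] at hlt
        linarith)
    rw [Finset.card_sdiff_of_subset (by
      intro x hx
      rw [Finset.mem_Icc] at hx
      rw [Finset.mem_Ico]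
      omega), Nat.card_Ico, Nat.card_Icc] at this
    omega
  obtain ⟨_, γ, hγ⟩ := h.good hτ hr hi0m.1 (by omega) hpre (by omega)
  have hγb := hγ (e+9) (by omega) (by omega)
  obtain ⟨β, rfl⟩ : ∃ β, γ = β + δ := ⟨γ - δ, by omega⟩
  have hβlo : i0 + 1 ≤ β + (e + 9) := by omega
  have hβhi : β + 1 ≤ i0 + e := by omega
  have first : ∀ i, e+9 ≤ i → i ≤ i0 + 1 → X i + X i0 = X (i+β) := by
    intro i hi hi'
    have h1 := (hγ i (by omega) (by omega)).1
    have h2 := (hr.shift (i+β) (by omega) (by omega)).1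
    rw [show i + (β + δ) = i + β + δ by ring, ← h2, ← hsh0.1] at h1
    linarith
  have second : ∀ i, e+9 ≤ i → i ≤ i0 → X (i0+1) + X i = X (i+β+1) := by
    intro i hi hi'
    have hsi := hr.shift i (by omega) (by omega)
    have hposi := h.pos i (by omega) (by omega)
    have hPi : i + δ ∈ P := hr.P_up j0 hr.j0P _ (by omega) (by omega)
      (by rw [← hsi.1]; linarith)
    have hH := hr.P_hi _ hPi
    have hHlo := hH.lo
    have sym := h.high_sym hτ10 hH
    have inj := h.high_inj hH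
    have low := h.high_low hH
    have h1 : X i0 + X (i+δ) = X (i+β+δ) := by
      have h2 := (hr.shift (i+β) (by omega) (by omega)).1
      have h3 := first i hi (by omega)
      rw [← h2, ← h3, ← hsi.1]; ring
    have hT0 := h.Tf_eq (j := i+δ) (i := i0) (a := i+β+δ) (by omega) (by omega) h1
    have hlow := stair_low sym low (i := i0+1) (by omega) (by omega)
    have hm := stair_mono sym (i := i0) (i' := i0+1) (by omega) (by omega) (by omega) hlow
    rw [hT0] at hm
    have hle : Tf τ X (i+δ) (i0+1) ≤ 8*τ - (i+β+δ) := by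
      rcases le_or_gt (Tf τ X (i+δ) (i0+1)) (8*τ - (i+δ)) with h4 | h4
      · rw [min_eq_left h4] at hm; exact hm
      · rw [min_eq_right h4.le] at hm; omega
    have hne : Tf τ X (i+δ) (i0+1) ≠ 8*τ - (i+β+δ) := by
      intro heq
      have := inj i0 (i0+1) (by omega) (by omega) (by omega) (by omega)
        (by rw [hT0, heq]) (by rw [hT0]; omega)
      omega
    have hst := stair_step (by omega) sym inj (i := i0) (by omega) (by omega) hlow (by omega)
    rw [hT0] at hst
    obtain ⟨_, _, h3, h4⟩ := Tf_pos (τ := τ) (X := X) (j := i+δ) (i := i0+1) (by omega)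
    rw [show 8*τ - Tf τ X (i+δ) (i0+1) = i+β+1+δ by omega] at h3
    have h5 := (hr.shift (i+β+1) (by omega) (by omega)).1
    rw [← h5, ← hsi.1] at h3
    linarith
  obtain ⟨c, hc⟩ : ∃ c, c = X (i0+1) - X i0 := ⟨_, rfl⟩
  have hAP0 : ∀ i, e+9 ≤ i → i ≤ i0 → X (i+1) = X i + c := by
    intro i hi hi'
    have h1 := first (i+1) (by omega) (by omega)
    have h2 := second i hi hi'
    rw [show i + 1 + β = i + β + 1 by ring] at h1
    rw [hc]; linarith
  have hcpos : 0 < c := by
    have h1 := hAP0 (i0-1) (by omega) (by omega)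
    rw [show i0 - 1 + 1 = i0 by omega] at h1
    have h2 := hpre (i0-1) (by omega) (by omega)
    linarith
  have hform0 : ∀ d : ℕ, e+9+d ≤ i0+1 → X (e+9+d) = X (e+9) + c * d := by
    intro d
    induction d with
    | zero => intro _; simp
    | succ d ih =>
      intro hd
      have h1 := hAP0 (e+9+d) (by omega) (by omega)
      rw [show e + 9 + (d+1) = e + 9 + d + 1 by ring, h1, ih (by omega)]
      push_cast; ring
  -- period
  have hsh5 := hr.shift 5 (le_refl _) (by omega)
  obtain ⟨_, γ3, hγ3⟩ := h.good hτ hr (i' := 5) (le_refl _) (by omega) (by intro b hb hb'; omega)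
    (by omega)
  have hγ3b := hγ3 (e+9) (by omega) (by omega)
  have hpos5 := h.pos 5 (by omega) (by omega)
  have hγ3δ : δ + 1 ≤ γ3 := by
    by_contra hcon
    push Not at hcon
    obtain ⟨r, hrr⟩ : ∃ r, δ = γ3 + r := ⟨δ - γ3, by omega⟩
    have hrle : r ≤ e + 3 := by omega
    have h1 := (hγ3 (i0+1) (by omega) (by omega)).1
    have h2 := (hr.shift (i0+1-r) (by omega) (by omega)).1
    rw [show i0 + 1 + γ3 = i0 + 1 - r + δ by omega, ← h2, ← hsh5.1] at h1
    have h3 := hform0 (i0+1-r-(e+9)) (by omega)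
    have h4 := hform0 (i0+1-(e+9)) (by omega)
    rw [show e + 9 + (i0+1-r-(e+9)) = i0+1-r by omega] at h3
    rw [show e + 9 + (i0+1-(e+9)) = i0+1 by omega] at h4
    have h5 : ((i0+1-r-(e+9) : ℕ) : ℚ) ≤ ((i0+1-(e+9) : ℕ) : ℚ) := by
      exact_mod_cast (by omega : i0+1-r-(e+9) ≤ i0+1-(e+9))
    have h6 := mul_le_mul_of_nonneg_left h5 hcpos.le
    linarith
  obtain ⟨ρ, rfl⟩ : ∃ ρ, γ3 = δ + ρ := ⟨γ3 - δ, by omega⟩
  have hper : ∀ i, e+9 ≤ i → i + 2*(e+4) ≤ 8*τ - j0 → X (i+ρ) = X i + X 5 := by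
    intro i hi hi'
    have h1 := (hγ3 i (by omega) (by omega)).1
    have h2 := (hr.shift (i+ρ) (by omega) (by omega)).1
    rw [show i + (δ + ρ) = i + ρ + δ by ring, ← h2, ← hsh5.1] at h1
    linarith
  have hAP1 : ∀ i, e+9 ≤ i → i + 1 + 2*(e+4) ≤ 8*τ - j0 → X (i+1) = X i + c := by
    intro i
    induction i using Nat.strong_induction_on with
    | _ i ih =>
      intro hi hi'
      rcases le_or_gt i i0 with h1 | h1
      · exact hAP0 i hi h1
      · obtain ⟨i', rfl⟩ : ∃ i', i = i' + ρ := ⟨i - ρ, by omega⟩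
        have h2 := hper i' (by omega) (by omega)
        have h3 := hper (i'+1) (by omega) (by omega)
        have h4 := ih i' (by omega) (by omega) (by omega)
        rw [show i' + 1 + ρ = i' + ρ + 1 by ring] at h3
        rw [h3, h2, h4]; ring
  have hform : ∀ d : ℕ, e+9+d + 2*(e+4) ≤ 8*τ - j0 → X (e+9+d) = X (e+9) + c * d := by
    intro d
    induction d with
    | zero => intro _; simp
    | succ d ih =>
      intro hd
      have h1 := hAP1 (e+9+d) (by omega) (by omega)
      rw [show e + 9 + (d+1) = e + 9 + d + 1 by ring, h1, ih (by omega)]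
      push_cast; ring
  have hXi0 : X i0 = c * β := by
    have h1 := first (e+9) (le_refl _) (by omega)
    have h2 := hform β (by omega)
    rw [h2] at h1
    linarith
  refine ⟨c, (β:ℤ) - (i0:ℤ), hcpos, by omega, by omega, ?_⟩
  intro i hi hi'
  have h1 := hform (i - (e+9)) (by omega)
  have h2 := hform (i0 - (e+9)) (by omega)
  rw [show e + 9 + (i - (e+9)) = i by omega] at h1
  rw [show e + 9 + (i0 - (e+9)) = i0 by omega] at h2
  rw [Nat.cast_sub (by omega)] at h1 h2
  have h3 : X (e+9) = c * β - c * ((i0:ℚ) - ((e+9:ℕ):ℚ)) := by rw [← hXi0, h2]; ring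
  rw [h1, h3]
  push_cast
  ring

end H43R3.SumG
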