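import Mathlib
import Pool.Agent.H43R3.SumG.StepA3

/-!
Step B: the threshold and the middle part.
-/

set_option autoImplicit false

namespace H43R3.SumG

variable {τ e : ℕ} {X : ℕ → ℚ} {L : Set ℚ}

/-- Output of step A. -/
structure AData (τ e : ℕ) (X : ℕ → ℚ) (c : ℚ) (κ : ℤ) : Prop where
  cpos : 0 < c
  κlo : 1 - ((e:ℤ)+9) ≤ κ
  κhi : κ ≤ (e:ℤ)+9
  ap : ∀ i : ℕ, e+9 ≤ i → i ≤ 4*τ - 3*e - 10 → X i = c * ((i:ℚ) + (κ:ℚ))

theorem Core.B1 (h : Core τ e X L) (hτ : 100*(e+10) ≤ τ) {c : ℚ} {κ : ℤ}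
    (hA : AData τ e X c κ) (y : ℤ) (hy1 : 2*((e:ℤ)+9)+1+2*κ ≤ y)
    (hy2 : y ≤ 2*(4*(τ:ℤ) - 3*e - 10) - 1 + 2*κ) : c * (y:ℚ) ∈ L := by
  obtain ⟨s, hs⟩ : ∃ s : ℕ, y = s + 2*κ := ⟨(y - 2*κ).toNat, by omega⟩
  rcases le_or_gt s (4*τ - 3*e - 10 + (e+9)) with h1 | h1
  · have h2 := hA.ap (e+9) (le_refl _) (by omega)
    have h3 := hA.ap (s-(e+9)) (by omega) (by omega)
    have h4 := (h.uu (e+9) (s-(e+9)) (by omega) (by omega) (by omega) (by omega) (by omega)).2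
      (by omega)
    rw [h2, h3, Nat.cast_sub (by omega)] at h4
    rw [hs]
    convert h4 using 1
    push_cast; ring
  · have h2 := hA.ap (s - (4*τ - 3*e - 10)) (by omega) (by omega)
    have h3 := hA.ap (4*τ - 3*e - 10) (by omega) (by omega)
    have h4 := (h.uu (s - (4*τ - 3*e - 10)) (4*τ - 3*e - 10) (by omega) (by omega) (by omega)
      (by omega) (by omega)).2 (by omega)
    rw [h2, h3, Nat.cast_sub (by omega)] at h4
    rw [hs]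
    convert h4 using 1
    push_cast; ring

theorem Core.B2 (h : Core τ e X L) (hτ : 100*(e+10) ≤ τ) {c : ℚ} {κ : ℤ}
    (hA : AData τ e X c κ) :
    ∃ Θ : ℤ, 2*(4*(τ:ℤ) - 3*e - 10) - 1 + 2*κ ≤ Θ ∧
      (∀ y : ℤ, 2*((e:ℤ)+9)+1+2*κ ≤ y → y ≤ Θ → c * (y:ℚ) ∈ L) ∧ c * ((Θ+1:ℤ):ℚ) ∉ L := by
  classical
  have hκlo := hA.κlo
  have hκhi := hA.κhi
  have hcp := hA.cpos
  have hex : ∃ k : ℕ, c * ((2*((e:ℤ)+9)+1+2*κ + k : ℤ):ℚ) ∉ L := by
    by_contra hcon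
    push Not at hcon
    have key : ∀ k : ℕ, ∃ a, 1 ≤ a ∧ a < 8*τ ∧ c * ((2*((e:ℤ)+9)+1+2*κ + k : ℤ):ℚ) = X a := by
      intro k
      refine h.nh _ (hcon k) (e+9) (by omega) (by omega) ?_
      have h2 := hA.ap (e+9) (le_refl _) (by omega)
      obtain ⟨s, hs⟩ : ∃ s : ℕ, (s:ℤ) = (e:ℤ)+9+κ := ⟨_, Int.toNat_of_nonneg (by omega)⟩
      have hs' : (s:ℚ) = (e:ℚ)+9+(κ:ℚ) := by exact_mod_cast hs
      have h3 := hcon (k + s)
      rw [h2]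
      convert h3 using 1
      push_cast
      rw [hs']
      ring
    choose f hf using key
    have hcard : (Finset.range (8*τ)).card ≤ (Finset.Ico 1 (8*τ)).card := by
      refine Finset.card_le_card_of_injOn f ?_ ?_
      · intro k _
        rw [Finset.mem_coe, Finset.mem_Ico]
        exact ⟨(hf k).1, (hf k).2.1⟩
      · intro k _ k' _ heq
        have h1 := (hf k).2.2
        have h2 := (hf k').2.2
        rw [heq, ← h2] at h1
        have h3 := mul_left_cancel₀ hcp.ne' h1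
        have h4 : (2*((e:ℤ)+9)+1+2*κ + k : ℤ) = 2*((e:ℤ)+9)+1+2*κ + k' := by exact_mod_cast h3
        omega
    rw [Finset.card_range, Nat.card_Ico] at hcard
    omega
  refine ⟨2*((e:ℤ)+9)+1+2*κ + Nat.find hex - 1, ?_, ?_, ?_⟩
  · by_contra hcon
    push Not at hcon
    refine Nat.find_spec hex (h.B1 hτ hA _ (by omega) (by omega))
  · intro y hy1 hy2
    obtain ⟨k, hk⟩ : ∃ k : ℕ, y = 2*((e:ℤ)+9)+1+2*κ + k :=
      ⟨(y - (2*((e:ℤ)+9)+1+2*κ)).toNat, by omega⟩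
    have := Nat.find_min hex (m := k) (by omega)
    push Not at this
    rw [hk]; exact this
  · have := Nat.find_spec hex
    rw [show (2*((e:ℤ)+9)+1+2*κ + Nat.find hex - 1 + 1 : ℤ)
      = 2*((e:ℤ)+9)+1+2*κ + Nat.find hex by ring]
    exact this

/-- Θ data -/
structure TData (τ e : ℕ) (X : ℕ → ℚ) (L : Set ℚ) (c : ℚ) (κ Θ : ℤ) : Prop
    extends AData τ e X c κ where
  Θlo : 2*(4*(τ:ℤ) - 3*e - 10) - 1 + 2*κ ≤ Θ
  full : ∀ y : ℤ, 2*((e:ℤ)+9)+1+2*κ ≤ y → y ≤ Θ → c * (y:ℚ) ∈ L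
  next : c * ((Θ+1:ℤ):ℚ) ∉ L

theorem Core.B3 (h : Core τ e X L) (hτ : 100*(e+10) ≤ τ) {c : ℚ} {κ Θ : ℤ}
    (hA : TData τ e X L c κ Θ) (y : ℤ) (hy1 : (e:ℤ)+9+κ ≤ y) (hy2 : y ≤ Θ - ((e:ℤ)+9) - κ) :
    ∃ a, 1 ≤ a ∧ a < 8*τ ∧ c * (y:ℚ) = X a := by
  have hκlo := hA.κlo
  have hκhi := hA.κhi
  rcases le_or_gt y (4*(τ:ℤ) - 3*e - 10 + κ) with h1 | h1
  · obtain ⟨a, ha⟩ : ∃ a : ℕ, y = a + κ := ⟨(y - κ).toNat, by omega⟩
    refine ⟨a, by omega, by omega, ?_⟩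
    rw [hA.ap a (by omega) (by omega), ha]
    push_cast; ring
  · refine h.nh _ (hA.full y (by omega) (by omega)) (e+9) (by omega) (by omega) ?_
    have h2 := hA.ap (e+9) (le_refl _) (by omega)
    have h3 := hA.full (y + ((e:ℤ)+9) + κ) (by omega) (by omega)
    rw [h2]
    convert h3 using 1
    push_cast; ring

theorem TData.cinj {c : ℚ} {κ Θ : ℤ} (hA : TData τ e X L c κ Θ) {y z : ℤ}
    (hyz : c * (y:ℚ) = c * (z:ℚ)) : y = z := by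
  have := mul_left_cancel₀ hA.cpos.ne' hyz
  exact_mod_cast this

theorem Core.Bcount (h : Core τ e X L) (hτ : 100*(e+10) ≤ τ) {c : ℚ} {κ Θ : ℤ}
    (hA : TData τ e X L c κ Θ) : Θ ≤ 8*(τ:ℤ) - 2 + 2*((e:ℤ)+9) + 2*κ := by
  classical
  have key : ∀ y ∈ Finset.Icc ((e:ℤ)+9+κ) (Θ - ((e:ℤ)+9) - κ),
      ∃ a, 1 ≤ a ∧ a < 8*τ ∧ c * (y:ℚ) = X a := by
    intro y hy
    rw [Finset.mem_Icc] at hy
    exact h.B3 hτ hA y hy.1 hy.2
  choose! f hf using key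
  have hcard : (Finset.Icc ((e:ℤ)+9+κ) (Θ - ((e:ℤ)+9) - κ)).card ≤ (Finset.Ico 1 (8*τ)).card := by
    refine Finset.card_le_card_of_injOn f ?_ ?_
    · intro y hy
      have := hf y hy
      rw [Finset.mem_coe, Finset.mem_Ico]
      exact ⟨this.1, this.2.1⟩
    · intro y hy y' hy' heq
      have h1 := (hf y hy).2.2
      have h2 := (hf y' hy').2.2
      rw [heq, ← h2] at h1
      exact hA.cinj h1
  rw [Int.card_Icc, Nat.card_Ico] at hcard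
  omega

/-- the top zone -/
theorem Core.B4 (h : Core τ e X L) (hτ : 100*(e+10) ≤ τ) {c : ℚ} {κ Θ : ℤ}
    (hA : TData τ e X L c κ Θ) (k : ℕ) (hk1 : e+9 ≤ k) (hk2 : k ≤ 4*τ - 3*e - 12) :
    X (8*τ - k) = c * ((Θ - κ - k : ℤ):ℚ) := by
  have hκlo := hA.κlo
  have hκhi := hA.κhi
  have hΘ := hA.Θlo
  obtain ⟨a, ha1, ha2, ha3⟩ := h.B3 hτ hA (Θ - κ - k) (by omega) (by omega)
  have hnot : ¬ (e + 9 ≤ a ∧ a ≤ 4*τ - 3*e - 10) := by
    rintro ⟨h1, h2⟩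
    have h3 := hA.ap a h1 h2
    rw [h3] at ha3
    have h4 : (Θ - κ - k : ℤ) = (a:ℤ) + κ := by
      apply hA.cinj
      rw [ha3]; push_cast; ring
    omega
  have hk := hA.ap k hk1 (by omega)
  have hk' := hA.ap (k+1) (by omega) (by omega)
  have h1 : X a + X k ∈ L := by
    rw [← ha3, hk]
    have := hA.full Θ (by omega) (le_refl _)
    convert this using 1
    push_cast; ring
  have h2 : X a + X (k+1) ∉ L := by
    rw [← ha3, hk']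
    have := hA.next
    convert this using 2
    push_cast; ring
  have hak : a ≠ k := by rintro rfl; exact hnot ⟨hk1, by omega⟩
  have hak' : a ≠ k + 1 := by rintro rfl; exact hnot ⟨by omega, by omega⟩
  have h3 := (h.uu a k ha1 ha2 (by omega) (by omega) hak).1 h1
  have h4 : ¬ (a + (k+1) ≤ 8*τ) := fun hc =>
    h2 ((h.uu a (k+1) ha1 ha2 (by omega) (by omega) hak').2 hc)
  rw [show 8*τ - k = a by omega, ← ha3]

theorem Core.B5 (h : Core τ e X L) (hτ : 100*(e+10) ≤ τ) {c : ℚ} {κ Θ : ℤ}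
    (hA : TData τ e X L c κ Θ) (r : ℤ) (hr1 : 1 ≤ r) (hr2 : r ≤ 4*(τ:ℤ) - 3*e - 10 - (e+9)) :
    c * ((Θ + r : ℤ):ℚ) ∉ L := by
  obtain ⟨s, rfl⟩ : ∃ s : ℕ, r = s := ⟨r.toNat, by omega⟩
  have h1 := h.B4 hτ hA (e+9) (le_refl _) (by omega)
  have h2 := hA.ap (e+9+s) (by omega) (by omega)
  have h3 := h.uu (8*τ-(e+9)) (e+9+s) (by omega) (by omega) (by omega) (by omega) (by omega)
  intro hc
  have : X (8*τ-(e+9)) + X (e+9+s) ∈ L := by
    rw [h1, h2]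
    convert hc using 1
    push_cast; ring
  have := h3.1 this
  omega

end H43R3.SumG
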