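import Mathlib
import Pool.Agent.H43R3.SumG.StepB

/-!
Step B (continued).
-/

set_option autoImplicit false

namespace H43R3.SumG

variable {τ e : ℕ} {X : ℕ → ℚ} {L : Set ℚ}

theorem Core.B6 (h : Core τ e X L) (hτ : 100*(e+10) ≤ τ) {c : ℚ} {κ Θ : ℤ}
    (hA : TData τ e X L c κ Θ) (a : ℕ) (ha1 : 1 ≤ a) (ha2 : a + (4*τ - 3*e - 12) ≤ 8*τ) :
    ∃ y : ℤ, X a = c * (y:ℚ) ∧ 1 ≤ y ∧ y + (4*(τ:ℤ) - 3*e - 12) + κ ≤ Θ := by
  classical
  have hκlo := hA.κlo
  have hκhi := hA.κhi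
  have hΘ := hA.Θlo
  have hcp := hA.cpos
  -- existence of a good k
  have hex : ∃ k, e+9 ≤ k ∧ k ≤ 4*τ - 3*e - 12 ∧ k ≠ a ∧ ∃ b,
      ((e+9 ≤ b ∧ b ≤ 4*τ - 3*e - 12) ∨ (8*τ - (4*τ - 3*e - 12) ≤ b ∧ b ≤ 8*τ - (e+9))) ∧
      X k + X a = X b := by
    by_contra hcon
    push Not at hcon
    obtain ⟨Q, hQ⟩ : ∃ Q : ℕ → Prop, ∀ i, Q i ↔ ∃ b, 1 ≤ b ∧ b < 8*τ ∧ X i + X a = X b :=
      ⟨_, fun _ => Iff.rfl⟩
    set K := (Finset.Icc (e+9) (4*τ - 3*e - 12)).erase a with hK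
    have hKcard : 4*τ - 3*e - 12 - (e+9) ≤ K.card := by
      have := Finset.pred_card_le_card_erase (s := Finset.Icc (e+9) (4*τ - 3*e - 12)) (a := a)
      rw [Nat.card_Icc, ← hK] at this
      omega
    have hsum : (K.filter Q).card + (K.filter (fun i => ¬ Q i)).card = K.card :=
      Finset.card_filter_add_card_filter_not _
    have h1 : (K.filter (fun i => ¬ Q i)).card ≤ e := by
      refine h.ex a ha1 (by omega) _ ?_
      intro i hi
      rw [Finset.mem_filter, hK, Finset.mem_erase, Finset.mem_Icc] at hi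
      refine ⟨by omega, by omega, hi.1.1, ?_, ?_⟩
      · exact (h.uu i a (by omega) (by omega) ha1 (by omega) hi.1.1).2 (by omega)
      · intro b hb hb' heq
        exact hi.2 ((hQ i).2 ⟨b, hb, hb', heq⟩)
    have h2 : (K.filter Q).card ≤ ((Finset.Ico 1 (e+9)) ∪
        ((Finset.Ioo (4*τ - 3*e - 12) (8*τ - (4*τ - 3*e - 12))) ∪
          (Finset.Ioo (8*τ - (e+9)) (8*τ)))).card := by
      have key : ∀ i ∈ K.filter Q, ∃ b, 1 ≤ b ∧ b < 8*τ ∧ X i + X a = X b := by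
        intro i hi
        rw [Finset.mem_filter] at hi
        exact (hQ i).1 hi.2
      choose! f hf using key
      refine Finset.card_le_card_of_injOn f ?_ ?_
      · intro i hi
        have hi' : i ∈ K.filter Q := hi
        obtain ⟨h1, h2, h3⟩ := hf i hi'
        rw [Finset.mem_filter, hK, Finset.mem_erase, Finset.mem_Icc] at hi'
        have h4 := hcon i hi'.1.2.1 hi'.1.2.2 hi'.1.1 (f i)
        have h5 : ¬ ((e+9 ≤ f i ∧ f i ≤ 4*τ - 3*e - 12) ∨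
            (8*τ - (4*τ - 3*e - 12) ≤ f i ∧ f i ≤ 8*τ - (e+9))) := fun hc => h4 hc h3
        rw [Finset.mem_coe, Finset.mem_union, Finset.mem_union, Finset.mem_Ico, Finset.mem_Ioo,
          Finset.mem_Ioo]
        omega
      · intro i hi i' hi' hii
        have hi1 : i ∈ K.filter Q := hi
        have hi1' : i' ∈ K.filter Q := hi'
        obtain ⟨h1, h2, h3⟩ := hf i hi1
        obtain ⟨h1', h2', h3'⟩ := hf i' hi1'
        rw [Finset.mem_filter, hK, Finset.mem_erase, Finset.mem_Icc] at hi1 hi1'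
        refine h.inj i i' (by omega) (by omega) (by omega) (by omega) ?_
        have : X i + X a = X i' + X a := by rw [h3, h3', hii]
        linarith
    have h3 := Finset.card_union_le (Finset.Ico 1 (e+9))
        ((Finset.Ioo (4*τ - 3*e - 12) (8*τ - (4*τ - 3*e - 12))) ∪
          (Finset.Ioo (8*τ - (e+9)) (8*τ)))
    have h4 := Finset.card_union_le (Finset.Ioo (4*τ - 3*e - 12) (8*τ - (4*τ - 3*e - 12)))
      (Finset.Ioo (8*τ - (e+9)) (8*τ))
    rw [Nat.card_Ico] at h3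
    rw [Nat.card_Ioo, Nat.card_Ioo] at h4
    omega
  obtain ⟨k, hk1, hk2, hka, b, hb, heq⟩ := hex
  have hk := hA.ap k hk1 (by omega)
  obtain ⟨z, hz1, hz2⟩ : ∃ z : ℤ, X b = c * (z:ℚ) ∧ z ≤ Θ - κ - ((e:ℤ)+9) := by
    rcases hb with hb | hb
    · refine ⟨b + κ, ?_, by omega⟩
      rw [hA.ap b hb.1 (by omega)]; push_cast; ring
    · have h1 := h.B4 hτ hA (8*τ - b) (by omega) (by omega)
      rw [show 8*τ - (8*τ - b) = b by omega] at h1
      exact ⟨_, h1, by omega⟩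
  have hXa : X a = c * ((z - k - κ : ℤ):ℚ) := by
    rw [hk, hz1] at heq
    push_cast
    linarith
  have hpos := h.pos a ha1 (by omega)
  have hy1 : 1 ≤ z - k - κ := by
    rw [hXa] at hpos
    have := (mul_pos_iff_of_pos_left hcp).1 hpos
    have h1 : (0:ℤ) < z - k - κ := by exact_mod_cast this
    omega
  refine ⟨z - k - κ, hXa, hy1, ?_⟩
  by_cases hd : a = 4*τ - 3*e - 12
  · have h1 := hA.ap a (by omega) (by omega)
    have h2 : (a:ℤ) + κ = z - k - κ := by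
      apply hA.cinj
      rw [← hXa, h1]; push_cast; ring
    omega
  · by_contra hcon
    push Not at hcon
    have h1 := (h.uu a (4*τ - 3*e - 12) ha1 (by omega) (by omega) (by omega) hd).2 (by omega)
    have h2 := hA.ap (4*τ - 3*e - 12) (by omega) (by omega)
    refine h.B5 hτ hA (z - k - κ + (4*(τ:ℤ) - 3*e - 12) + κ - Θ) (by omega) (by omega) ?_
    rw [hXa, h2] at h1
    convert h1 using 1
    have h3 : ((4*τ - 3*e - 12 : ℕ) : ℤ) = 4*(τ:ℤ) - 3*e - 12 := by omega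
    have h4 : ((4*τ - 3*e - 12 : ℕ) : ℚ) = 4*(τ:ℚ) - 3*e - 12 := by exact_mod_cast h3
    rw [h4]
    push_cast; ring

theorem Core.B7 (h : Core τ e X L) (hτ : 100*(e+10) ≤ τ) {c : ℚ} {κ Θ : ℤ}
    (hA : TData τ e X L c κ Θ) (a : ℕ) (ha1 : 4*τ - 3*e - 12 < a)
    (ha2 : a + (4*τ - 3*e - 12) < 8*τ) :
    ∃ y : ℤ, X a = c * (y:ℚ) ∧ (4*(τ:ℤ) - 3*e - 12) + κ + 1 ≤ y ∧
      y + (4*(τ:ℤ) - 3*e - 12) + κ + 1 ≤ Θ := by
  have hκlo := hA.κlo
  have hκhi := hA.κhi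
  have hΘ := hA.Θlo
  obtain ⟨y, hy1, hy2, hy3⟩ := h.B6 hτ hA a (by omega) (by omega)
  have h1 := h.B4 hτ hA (4*τ - 3*e - 12) (by omega) (le_refl _)
  have h3 : ((4*τ - 3*e - 12 : ℕ) : ℤ) = 4*(τ:ℤ) - 3*e - 12 := by omega
  have h2 : X a + X (8*τ - (4*τ - 3*e - 12)) ∉ L := by
    intro hc
    have := (h.uu a (8*τ - (4*τ - 3*e - 12)) (by omega) (by omega) (by omega) (by omega)
      (by omega)).1 hc
    omega
  refine ⟨y, hy1, ?_, ?_⟩
  · by_contra hcon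
    push Not at hcon
    apply h2
    rw [hy1, h1]
    have := hA.full (y + (Θ - κ - ((4*τ - 3*e - 12 : ℕ) : ℤ))) (by omega) (by omega)
    convert this using 1
    push_cast; ring
  · have hne : y ≠ Θ - κ - ((4*τ - 3*e - 12 : ℕ) : ℤ) := by
      intro heq
      have := h.inj a (8*τ - (4*τ - 3*e - 12)) (by omega) (by omega) (by omega) (by omega)
        (by rw [hy1, h1, heq])
      omega
    omega

theorem Core.B8 (h : Core τ e X L) (hτ : 100*(e+10) ≤ τ) {c : ℚ} {κ Θ : ℤ}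
    (hA : TData τ e X L c κ Θ) (y : ℤ) (hy1 : (4*(τ:ℤ) - 3*e - 12) + κ + 1 ≤ y)
    (hy2 : y + (4*(τ:ℤ) - 3*e - 12) + κ + 1 ≤ Θ) :
    ∃ a : ℕ, X a = c * (y:ℚ) ∧ 4*τ - 3*e - 12 < a ∧ a + (4*τ - 3*e - 12) < 8*τ := by
  have hκlo := hA.κlo
  have hκhi := hA.κhi
  have hΘ := hA.Θlo
  have hct := h.Bcount hτ hA
  obtain ⟨a, ha1, ha2, ha3⟩ := h.B3 hτ hA y (by omega) (by omega)
  have h1 := h.B4 hτ hA (4*τ - 3*e - 12) (by omega) (le_refl _)
  have hM := hA.ap (4*τ - 3*e - 12) (by omega) (by omega)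
  have h3 : ((4*τ - 3*e - 12 : ℕ) : ℤ) = 4*(τ:ℤ) - 3*e - 12 := by omega
  have h4 : ((4*τ - 3*e - 12 : ℕ) : ℚ) = 4*(τ:ℚ) - 3*e - 12 := by exact_mod_cast h3
  have hne1 : a ≠ 4*τ - 3*e - 12 := by
    rintro rfl
    rw [hM] at ha3
    have : y = ((4*τ - 3*e - 12 : ℕ) : ℤ) + κ := by
      apply hA.cinj
      rw [ha3]; push_cast; ring
    omega
  have hne2 : a ≠ 8*τ - (4*τ - 3*e - 12) := by
    rintro rfl
    rw [h1] at ha3
    have : y = Θ - κ - ((4*τ - 3*e - 12 : ℕ) : ℤ) := hA.cinj ha3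
    omega
  have h5 : X a + X (4*τ - 3*e - 12) ∈ L := by
    rw [← ha3, hM]
    have := hA.full (y + (4*(τ:ℤ) - 3*e - 12) + κ) (by omega) (by omega)
    convert this using 1
    rw [h4]
    push_cast; ring
  have h6 := (h.uu a (4*τ - 3*e - 12) ha1 ha2 (by omega) (by omega) hne1).1 h5
  have h7 : X a + X (8*τ - (4*τ - 3*e - 12)) ∉ L := by
    intro hc
    refine h.B5 hτ hA (y - κ - (4*(τ:ℤ) - 3*e - 12)) (by omega) (by omega) ?_
    rw [← ha3, h1] at hc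
    convert hc using 1
    push_cast
    rw [h4]
    ring
  have h8 : ¬ (a + (8*τ - (4*τ - 3*e - 12)) ≤ 8*τ) := fun hc =>
    h7 ((h.uu a (8*τ - (4*τ - 3*e - 12)) ha1 ha2 (by omega) (by omega) hne2).2 hc)
  exact ⟨a, ha3.symm, by omega, by omega⟩

theorem Core.Θeq (h : Core τ e X L) (hτ : 100*(e+10) ≤ τ) {c : ℚ} {κ Θ : ℤ}
    (hA : TData τ e X L c κ Θ) : Θ = 8*(τ:ℤ) + 2*κ := by
  classical
  have hκlo := hA.κlo
  have hκhi := hA.κhi
  have hΘ := hA.Θlo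
  apply le_antisymm
  · have key : ∀ y ∈ Finset.Icc ((4*(τ:ℤ) - 3*e - 12) + κ + 1) (Θ - (4*(τ:ℤ) - 3*e - 12) - κ - 1),
        ∃ a : ℕ, X a = c * (y:ℚ) ∧ 4*τ - 3*e - 12 < a ∧ a + (4*τ - 3*e - 12) < 8*τ := by
      intro y hy
      rw [Finset.mem_Icc] at hy
      exact h.B8 hτ hA y hy.1 (by omega)
    choose! f hf using key
    have hcard := Finset.card_le_card_of_injOn f (t := Finset.Ioo (4*τ - 3*e - 12)
        (8*τ - (4*τ - 3*e - 12)))
      (s := Finset.Icc ((4*(τ:ℤ) - 3*e - 12) + κ + 1) (Θ - (4*(τ:ℤ) - 3*e - 12) - κ - 1))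
      (by
        intro y hy
        have := hf y hy
        rw [Finset.mem_coe, Finset.mem_Ioo]
        omega)
      (by
        intro y hy y' hy' heq
        have h1 := (hf y hy).1
        have h2 := (hf y' hy').1
        rw [heq, h2] at h1
        exact (hA.cinj h1).symm)
    rw [Int.card_Icc, Nat.card_Ioo] at hcard
    omega
  · have key : ∀ a ∈ Finset.Ioo (4*τ - 3*e - 12) (8*τ - (4*τ - 3*e - 12)),
        ∃ y : ℤ, X a = c * (y:ℚ) ∧ (4*(τ:ℤ) - 3*e - 12) + κ + 1 ≤ y ∧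
          y + (4*(τ:ℤ) - 3*e - 12) + κ + 1 ≤ Θ := by
      intro a ha
      rw [Finset.mem_Ioo] at ha
      exact h.B7 hτ hA a ha.1 (by omega)
    choose! f hf using key
    have hcard := Finset.card_le_card_of_injOn f (s := Finset.Ioo (4*τ - 3*e - 12)
        (8*τ - (4*τ - 3*e - 12)))
      (t := Finset.Icc ((4*(τ:ℤ) - 3*e - 12) + κ + 1) (Θ - (4*(τ:ℤ) - 3*e - 12) - κ - 1))
      (by
        intro a ha
        have := hf a ha
        rw [Finset.mem_coe, Finset.mem_Icc]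
        omega)
      (by
        intro a ha a' ha' heq
        have h1 := (hf a ha).1
        have h2 := (hf a' ha').1
        have ha1 := Finset.mem_Ioo.1 (Finset.mem_coe.1 ha)
        have ha2 := Finset.mem_Ioo.1 (Finset.mem_coe.1 ha')
        exact h.inj a a' (by omega) (by omega) (by omega) (by omega) (by rw [h1, h2, heq]))
    rw [Int.card_Icc, Nat.card_Ioo] at hcard
    omega

end H43R3.SumG
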