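import Mathlib
import Pool.Agent.H43R3.SumG.StepB2

/-!
Step C: the two ends.
-/

set_option autoImplicit false

namespace H43R3.SumG

variable {τ e : ℕ} {X : ℕ → ℚ} {L : Set ℚ}

theorem Core.C1 (h : Core τ e X L) (hτ : 100*(e+10) ≤ τ) {c : ℚ} {κ : ℤ}
    (hA : TData τ e X L c κ (8*(τ:ℤ) + 2*κ)) (y : ℤ) (hy1 : (e:ℤ)+9+κ ≤ y)
    (hy2 : y ≤ 8*(τ:ℤ) - ((e:ℤ)+9) + κ) :
    ∃ a : ℕ, e+9 ≤ a ∧ a + (e+9) ≤ 8*τ ∧ X a = c * (y:ℚ) ∧ ((e:ℤ)+9+κ < y → e+9 < a) ∧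
      (y < 8*(τ:ℤ) - ((e:ℤ)+9) + κ → a + (e+9) < 8*τ) := by
  have hκlo := hA.κlo
  have hκhi := hA.κhi
  rcases le_or_gt y (4*(τ:ℤ) - 3*e - 10 + κ) with h1 | h1
  · obtain ⟨a, ha⟩ : ∃ a : ℕ, y = a + κ := ⟨(y - κ).toNat, by omega⟩
    refine ⟨a, by omega, by omega, ?_, by omega, by omega⟩
    rw [hA.ap a (by omega) (by omega), ha]
    push_cast; ring
  · rcases le_or_gt (8*(τ:ℤ) - (4*(τ:ℤ) - 3*e - 12) + κ) y with h2 | h2
    · obtain ⟨k, hk⟩ : ∃ k : ℕ, y = 8*τ + κ - k := ⟨(8*τ + κ - y).toNat, by omega⟩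
      have h3 := h.B4 hτ hA k (by omega) (by omega)
      refine ⟨8*τ - k, by omega, by omega, ?_, by omega, by omega⟩
      rw [h3, hk]
      push_cast; ring
    · obtain ⟨a, ha1, ha2, ha3⟩ := h.B8 hτ hA y (by omega) (by omega)
      exact ⟨a, by omega, by omega, ha1, by omega, by omega⟩

theorem Core.C1' (h : Core τ e X L) (hτ : 100*(e+10) ≤ τ) {c : ℚ} {κ : ℤ}
    (hA : TData τ e X L c κ (8*(τ:ℤ) + 2*κ)) (a : ℕ) (ha1 : e+9 ≤ a) (ha2 : a + (e+9) ≤ 8*τ) :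
    ∃ y : ℤ, X a = c * (y:ℚ) ∧ (e:ℤ)+9+κ ≤ y ∧ y ≤ 8*(τ:ℤ) - ((e:ℤ)+9) + κ := by
  have hκlo := hA.κlo
  have hκhi := hA.κhi
  rcases le_or_gt a (4*τ - 3*e - 10) with h1 | h1
  · refine ⟨a + κ, ?_, by omega, by omega⟩
    rw [hA.ap a ha1 h1]
    push_cast; ring
  · rcases le_or_gt (8*τ) (a + (4*τ - 3*e - 12)) with h2 | h2
    · have h3 := h.B4 hτ hA (8*τ - a) (by omega) (by omega)
      rw [show 8*τ - (8*τ - a) = a by omega] at h3
      exact ⟨_, h3, by omega, by omega⟩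
    · obtain ⟨y, hy1, hy2, hy3⟩ := h.B7 hτ hA a (by omega) (by omega)
      exact ⟨y, hy1, by omega, by omega⟩

theorem Core.Cempty (h : Core τ e X L) (hτ : 100*(e+10) ≤ τ) {c : ℚ} {κ : ℤ}
    (hA : TData τ e X L c κ (8*(τ:ℤ) + 2*κ)) (r : ℤ) (hr1 : 1 ≤ r)
    (hr2 : r + 2*((e:ℤ)+9) + 1 ≤ 8*(τ:ℤ)) :
    c * ((8*(τ:ℤ) + 2*κ + r : ℤ):ℚ) ∉ L := by
  obtain ⟨a, ha1, ha2, ha3, ha4, ha5⟩ := h.C1 hτ hA ((e:ℤ)+9+κ+r) (by omega) (by omega)
  have h4 := ha4 (by omega)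
  have h5 := ha5 (by omega)
  have h6 := h.B4 hτ hA (e+9) (by omega) (by omega)
  intro hc
  have h7 : X a + X (8*τ - (e+9)) ∈ L := by
    rw [ha3, h6]
    convert hc using 1
    push_cast; ring
  have := (h.uu a (8*τ - (e+9)) (by omega) (by omega) (by omega) (by omega) (by omega)).1 h7
  omega

theorem Core.Csmall (h : Core τ e X L) (hτ : 100*(e+10) ≤ τ) {c : ℚ} {κ : ℤ}
    (hA : TData τ e X L c κ (8*(τ:ℤ) + 2*κ)) (a : ℕ) (ha1 : 1 ≤ a) (ha2 : a < e + 9) :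
    ∃ y : ℤ, 1 ≤ y ∧ y ≤ (e:ℤ)+9-1+κ ∧ X a = c * (y:ℚ) := by
  have hκlo := hA.κlo
  have hκhi := hA.κhi
  obtain ⟨y, hy1, hy2, hy3⟩ := h.B6 hτ hA a ha1 (by omega)
  have h6 := h.B4 hτ hA (e+9) (by omega) (by omega)
  have h7 := (h.uu a (8*τ - (e+9)) (by omega) (by omega) (by omega) (by omega) (by omega)).2
    (by omega)
  refine ⟨y, hy2, ?_, hy1⟩
  have hle : y ≤ (e:ℤ)+9+κ := by
    by_contra hcon
    push Not at hcon
    refine h.Cempty hτ hA (y - κ - ((e:ℤ)+9)) (by omega) (by omega) ?_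
    rw [hy1, h6] at h7
    convert h7 using 1
    push_cast; ring
  have hne : y ≠ (e:ℤ)+9+κ := by
    intro heq
    have h8 := hA.ap (e+9) (le_refl _) (by omega)
    have := h.inj a (e+9) (by omega) (by omega) (by omega) (by omega)
      (by rw [hy1, h8, heq]; push_cast; ring)
    omega
  omega

theorem Core.κnonneg (h : Core τ e X L) (hτ : 100*(e+10) ≤ τ) {c : ℚ} {κ : ℤ}
    (hA : TData τ e X L c κ (8*(τ:ℤ) + 2*κ)) : 0 ≤ κ := by
  classical
  have key : ∀ a ∈ Finset.Ico 1 (e+9), ∃ y : ℤ, 1 ≤ y ∧ y ≤ (e:ℤ)+9-1+κ ∧ X a = c * (y:ℚ) := by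
    intro a ha
    rw [Finset.mem_Ico] at ha
    exact h.Csmall hτ hA a ha.1 ha.2
  choose! f hf using key
  have hcard := Finset.card_le_card_of_injOn f (s := Finset.Ico 1 (e+9))
    (t := Finset.Icc 1 ((e:ℤ)+9-1+κ))
    (by
      intro a ha
      have := hf a ha
      rw [Finset.mem_coe, Finset.mem_Icc]
      exact ⟨this.1, this.2.1⟩)
    (by
      intro a ha a' ha' heq
      have h1 := (hf a ha).2.2
      have h2 := (hf a' ha').2.2
      have ha1 := Finset.mem_Ico.1 (Finset.mem_coe.1 ha)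
      have ha2 := Finset.mem_Ico.1 (Finset.mem_coe.1 ha')
      exact h.inj a a' (by omega) (by omega) (by omega) (by omega) (by rw [h1, h2, heq]))
  rw [Int.card_Icc, Nat.card_Ico] at hcard
  omega

structure St (τ e : ℕ) (X : ℕ → ℚ) (c : ℚ) (κ : ℤ) (r : ℕ) : Prop where
  s1 : ∀ i : ℕ, r ≤ i → i ≤ e+9 → X i = c * (((i:ℤ) + κ : ℤ):ℚ)
  s2 : ∀ l : ℕ, 8*τ ≤ l + (e+9) → l + r ≤ 8*τ + 1 → X l = c * (((l:ℤ) + κ : ℤ):ℚ)
  s3 : ∀ a : ℕ, 1 ≤ a → a < r → ∃ y : ℤ, 1 ≤ y ∧ y ≤ (r:ℤ)-1+κ ∧ X a = c * (y:ℚ)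

theorem Core.far (h : Core τ e X L) (hτ : 100*(e+10) ≤ τ) {c : ℚ} {κ : ℤ}
    (hA : TData τ e X L c κ (8*(τ:ℤ) + 2*κ)) (z : ℤ) (hz1 : 8*(τ:ℤ) + 1 - ((e:ℤ)+9) + κ ≤ z)
    (hz2 : z ≤ 8*(τ:ℤ) - 1 + κ) (f : ℕ) (hf1 : 6*τ - 4 ≤ f) (hf2 : f ≤ 6*τ) :
    c * (z:ℚ) + X f ∉ L := by
  have h1 := h.B4 hτ hA (8*τ - f) (by omega) (by omega)
  rw [show 8*τ - (8*τ - f) = f by omega] at h1
  intro hc
  refine h.Cempty hτ hA (z + f - 8*τ - κ) (by omega) (by omega) ?_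
  rw [h1] at hc
  convert hc using 1
  have : ((8*τ - f : ℕ) : ℤ) = 8*(τ:ℤ) - f := by omega
  rw [this]
  push_cast; ring

theorem Core.St0 (h : Core τ e X L) (hτ : 100*(e+10) ≤ τ) {c : ℚ} {κ : ℤ}
    (hA : TData τ e X L c κ (8*(τ:ℤ) + 2*κ)) : St τ e X c κ (e+9) := by
  have hκlo := hA.κlo
  have hκhi := hA.κhi
  have hk0 := h.κnonneg hτ hA
  refine ⟨?_, ?_, ?_⟩
  · intro i hi hi'
    rw [hA.ap i hi (by omega)]
    push_cast; ring
  · intro l hl hl'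
    rcases Nat.lt_or_ge (8*τ) (l + (e+9)) with h1 | h1
    · have hl2 : l + (e+9) = 8*τ + 1 := by omega
      have hw : c * ((8*(τ:ℤ) + 1 - ((e:ℤ)+9) + κ : ℤ):ℚ) ∈ L :=
        hA.full _ (by omega) (by omega)
      obtain ⟨y2, hy1, hy2, hy3⟩ := h.Csmall hτ hA 2 (by omega) (by omega)
      have hw2 : c * ((8*(τ:ℤ) + 1 - ((e:ℤ)+9) + κ : ℤ):ℚ) + X 2 ∈ L := by
        have := hA.full (8*(τ:ℤ) + 1 - ((e:ℤ)+9) + κ + y2) (by omega) (by omega)
        rw [hy3]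
        convert this using 1
        push_cast; ring
      obtain ⟨b, hb1, hb2, hb3⟩ := h.nh2 _ hw 2 (by omega) (by omega) hw2
        (h.far hτ hA _ (by omega) (by omega) (6*τ) (by omega) (by omega))
        (h.far hτ hA _ (by omega) (by omega) (6*τ-3) (by omega) (by omega))
        (h.far hτ hA _ (by omega) (by omega) (6*τ-4) (by omega) (by omega))
      obtain ⟨y, hy1', hy2', hy3'⟩ := h.Csmall hτ hA (e+8) (by omega) (by omega)
      have hbne : b ≠ e+8 := by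
        rintro rfl
        rw [hy3'] at hb3
        have := hA.cinj hb3
        omega
      have h4 : X b + X (e+8) ∈ L := by
        rw [← hb3, hy3']
        have := hA.full (8*(τ:ℤ) + 1 - ((e:ℤ)+9) + κ + y) (by omega) (by omega)
        convert this using 1
        push_cast; ring
      have h5 := (h.uu b (e+8) hb1 hb2 (by omega) (by omega) hbne).1 h4
      have hp := hA.ap (e+9) (le_refl _) (by omega)
      have hbne' : b ≠ e+9 := by
        rintro rfl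
        rw [hp] at hb3
        have : (8*(τ:ℤ) + 1 - ((e:ℤ)+9) + κ : ℤ) = ((e+9:ℕ):ℤ) + κ := by
          apply hA.cinj
          rw [hb3]; push_cast; ring
        omega
      have h6 : X b + X (e+9) ∉ L := by
        intro hc
        refine h.Cempty hτ hA 1 (by omega) (by omega) ?_
        rw [← hb3, hp] at hc
        convert hc using 1
        push_cast; ring
      have h7 : ¬ (b + (e+9) ≤ 8*τ) := fun hc =>
        h6 ((h.uu b (e+9) hb1 hb2 (by omega) (by omega) hbne').2 hc)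
      have hbl : b = l := by omega
      rw [hbl] at hb3
      rw [← hb3]
      congr 2
      omega
    · have h3 := h.B4 hτ hA (e+9) (le_refl _) (by omega)
      rw [show 8*τ - (e+9) = l by omega] at h3
      rw [h3]
      congr 2
      omega
  · intro a ha ha'
    obtain ⟨y, hy1, hy2, hy3⟩ := h.Csmall hτ hA a ha ha'
    exact ⟨y, hy1, by push_cast; omega, hy3⟩

theorem Core.Ststep (h : Core τ e X L) (hτ : 100*(e+10) ≤ τ) {c : ℚ} {κ : ℤ}
    (hA : TData τ e X L c κ (8*(τ:ℤ) + 2*κ)) {r : ℕ} (hr : 2 ≤ r) (hr' : r + 1 ≤ e + 9)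
    (hS : St τ e X c κ (r+1)) : St τ e X c κ r := by
  have hκlo := hA.κlo
  have hκhi := hA.κhi
  have hk0 := h.κnonneg hτ hA
  -- w = c (8τ + 1 - r + κ)
  have hw : c * ((8*(τ:ℤ) + 1 - r + κ : ℤ):ℚ) ∈ L := hA.full _ (by omega) (by omega)
  have hwadd : ∀ a : ℕ, ∀ y : ℤ, X a = c * (y:ℚ) → 1 ≤ y → y ≤ (r:ℤ) - 1 + κ →
      c * ((8*(τ:ℤ) + 1 - r + κ : ℤ):ℚ) + X a ∈ L := by
    intro a y h1 h2 h3
    have := hA.full (8*(τ:ℤ) + 1 - r + κ + y) (by omega) (by omega)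
    rw [h1]
    convert this using 1
    push_cast; ring
  obtain ⟨a0, ha01, ha02, ha0⟩ : ∃ a : ℕ, 1 ≤ a ∧ a < 8*τ ∧
      c * ((8*(τ:ℤ) + 1 - r + κ : ℤ):ℚ) + X a ∈ L := by
    obtain ⟨y1, h1, h2, h3⟩ := hS.s3 1 (by omega) (by omega)
    obtain ⟨y2, h4, h5, h6⟩ := hS.s3 2 (by omega) (by omega)
    push_cast at h2 h5
    by_cases hc : y1 ≤ (r:ℤ) - 1 + κ
    · exact ⟨1, le_refl _, by omega, hwadd 1 y1 h3 h1 hc⟩
    · have hne : y1 ≠ y2 := by
        rintro rfl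
        have := h.inj 1 2 (by omega) (by omega) (by omega) (by omega) (by rw [h3, h6])
        omega
      exact ⟨2, by omega, by omega, hwadd 2 y2 h6 h4 (by omega)⟩
  obtain ⟨b, hb1, hb2, hb3⟩ := h.nh2 _ hw a0 ha01 ha02 ha0
    (h.far hτ hA _ (by omega) (by omega) (6*τ) (by omega) (by omega))
    (h.far hτ hA _ (by omega) (by omega) (6*τ-3) (by omega) (by omega))
    (h.far hτ hA _ (by omega) (by omega) (6*τ-4) (by omega) (by omega))
  have hXr1 := hS.s1 (r+1) (le_refl _) hr'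
  have hb4 : b ≠ r + 1 := by
    rintro rfl
    rw [hXr1] at hb3
    have := hA.cinj hb3
    push_cast at this
    omega
  have h6 : X b + X (r+1) ∉ L := by
    intro hc
    refine h.Cempty hτ hA 2 (by omega) (by omega) ?_
    rw [← hb3, hXr1] at hc
    convert hc using 1
    push_cast; ring
  have h7 : ¬ (b + (r+1) ≤ 8*τ) := fun hc =>
    h6 ((h.uu b (r+1) hb1 hb2 (by omega) (by omega) hb4).2 hc)
  have hb5 : b + r ≠ 8*τ := by
    intro hc
    have h8 := hS.s2 b (by omega) (by omega)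
    rw [← hb3] at h8
    have := hA.cinj h8
    omega
  have hb6 : 8*τ < b + r := by omega
  obtain ⟨y, hy1, hy2, hy3⟩ := hS.s3 r (by omega) (by omega)
  push_cast at hy2
  have hyr : y = (r:ℤ) + κ := by
    by_contra hne
    have h8 : X b + X r ∈ L := by
      rw [← hb3]
      exact hwadd r y hy3 hy1 (by omega)
    have := (h.uu b r hb1 hb2 (by omega) (by omega) (by omega)).1 h8
    omega
  have hs3 : ∀ a : ℕ, 1 ≤ a → a < r → ∃ y : ℤ, 1 ≤ y ∧ y ≤ (r:ℤ)-1+κ ∧ X a = c * (y:ℚ) := by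
    intro a ha ha'
    obtain ⟨z, hz1, hz2, hz3⟩ := hS.s3 a ha (by omega)
    push_cast at hz2
    have hne : z ≠ (r:ℤ) + κ := by
      intro heq
      have := h.inj a r (by omega) (by omega) (by omega) (by omega) (by rw [hz3, hy3, heq, hyr])
      omega
    exact ⟨z, hz1, by omega, hz3⟩
  obtain ⟨z, hz1, hz2, hz3⟩ := hs3 (r-1) (by omega) (by omega)
  have h9 : X b + X (r-1) ∈ L := by
    rw [← hb3]
    exact hwadd (r-1) z hz3 hz1 hz2
  have h10 := (h.uu b (r-1) hb1 hb2 (by omega) (by omega) (by omega)).1 h9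
  refine ⟨?_, ?_, hs3⟩
  · intro i hi hi'
    rcases Nat.lt_or_ge r i with h11 | h11
    · exact hS.s1 i (by omega) hi'
    · have : i = r := by omega
      rw [this, hy3, hyr]
  · intro l hl hl'
    rcases Nat.lt_or_ge (l + r) (8*τ + 1) with h11 | h11
    · exact hS.s2 l hl (by omega)
    · have hbl : b = l := by omega
      rw [hbl] at hb3
      rw [← hb3]
      congr 2
      omega

theorem Core.St2 (h : Core τ e X L) (hτ : 100*(e+10) ≤ τ) {c : ℚ} {κ : ℤ}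
    (hA : TData τ e X L c κ (8*(τ:ℤ) + 2*κ)) : St τ e X c κ 2 := by
  have : ∀ d : ℕ, ∀ r : ℕ, 2 ≤ r → r + d = e + 9 → St τ e X c κ r := by
    intro d
    induction d with
    | zero =>
      intro r _ hr
      have : r = e + 9 := by omega
      rw [this]; exact h.St0 hτ hA
    | succ d ih =>
      intro r hr hrd
      exact h.Ststep hτ hA hr (by omega) (ih (r+1) (by omega) (by omega))
  exact this (e+7) 2 (le_refl _) (by omega)

end H43R3.SumG
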