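import Mathlib
import Pool.Agent.H43R3.SumG.StepC

/-!
Step D: the four half-integer vertices; the rigidity theorem.
-/

set_option autoImplicit false

namespace H43R3.SumG

structure Lab (τ e : ℕ) (X : ℕ → ℚ) (A1 A2 A3 Q : ℚ) (L : Set ℚ) : Prop where
  pos : ∀ i, 1 ≤ i → i < 8*τ → 0 < X i
  inj : ∀ i j, 1 ≤ i → i < 8*τ → 1 ≤ j → j < 8*τ → X i = X j → i = j
  uu : ∀ i j, 1 ≤ i → i < 8*τ → 1 ≤ j → j < 8*τ → i ≠ j → (X i + X j ∈ L ↔ i + j ≤ 8*τ)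
  ex : ∀ j, 1 ≤ j → j < 8*τ → ∀ S : Finset ℕ,
    (∀ i ∈ S, 1 ≤ i ∧ i < 8*τ ∧ i ≠ j ∧ X i + X j ∈ L ∧
      ∀ a, 1 ≤ a → a < 8*τ → X i + X j ≠ X a) → S.card ≤ e
  posA1 : 0 < A1
  posQ : 0 < Q
  memA1 : A1 ∈ L
  memQ : Q ∈ L
  neA1 : ∀ i, 1 ≤ i → i < 8*τ → X i ≠ A1
  neQ1 : Q ≠ A1
  neQ2 : Q ≠ A2
  neQ3 : Q ≠ A3
  a1u : ∀ i, 1 ≤ i → i < 8*τ → (A1 + X i ∈ L ↔ (i = 3 ∨ i = 4 ∨ i = 6*τ))
  a2u : ∀ i, 1 ≤ i → i < 8*τ → (A2 + X i ∈ L ↔ (i = 1 ∨ i = 6*τ-3))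
  a3u : ∀ i, 1 ≤ i → i < 8*τ → (A3 + X i ∈ L ↔ i = 6*τ-4)
  qu : ∀ i, 1 ≤ i → i < 8*τ → Q + X i ∉ L
  a12 : A1 + A2 ∈ L
  a13 : A1 + A3 ∈ L
  q1 : Q + A1 ∈ L
  q2 : Q + A2 ∈ L
  q3 : Q + A3 ∉ L
  dead : ∀ w ∈ L, (∀ i, 1 ≤ i → i < 8*τ → w ≠ X i) → w ≠ A1 → w ≠ A2 → w ≠ A3 → w ≠ Q →
    ∀ i, 1 ≤ i → i < 8*τ → w + X i ∉ L

variable {τ e : ℕ} {X : ℕ → ℚ} {A1 A2 A3 Q : ℚ} {L : Set ℚ}

theorem Lab.classify (h : Lab τ e X A1 A2 A3 Q L) {w : ℚ} (hw : w ∈ L) {k : ℕ} (hk : 1 ≤ k)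
    (hk' : k < 8*τ) (hwk : w + X k ∈ L) :
    (∃ a, 1 ≤ a ∧ a < 8*τ ∧ w = X a) ∨ (w = A1 ∧ (k = 3 ∨ k = 4 ∨ k = 6*τ)) ∨
      (w = A2 ∧ (k = 1 ∨ k = 6*τ-3)) ∨ (w = A3 ∧ k = 6*τ-4) := by
  by_cases h0 : ∃ a, 1 ≤ a ∧ a < 8*τ ∧ w = X a
  · exact Or.inl h0
  right
  by_cases h1 : w = A1
  · left; exact ⟨h1, (h.a1u k hk hk').1 (h1 ▸ hwk)⟩
  right
  by_cases h2 : w = A2
  · left; exact ⟨h2, (h.a2u k hk hk').1 (h2 ▸ hwk)⟩
  right
  by_cases h3 : w = A3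
  · exact ⟨h3, (h.a3u k hk hk').1 (h3 ▸ hwk)⟩
  exfalso
  by_cases h4 : w = Q
  · exact h.qu k hk hk' (h4 ▸ hwk)
  refine h.dead w hw ?_ h1 h2 h3 h4 k hk hk' hwk
  intro i hi hi' heq
  exact h0 ⟨i, hi, hi', heq⟩

theorem Lab.core (h : Lab τ e X A1 A2 A3 Q L) (hτ : 10 ≤ τ) : Core τ e X L := by
  refine ⟨h.pos, h.inj, h.uu, ?_, ?_, h.ex⟩
  · intro w hw k hk hk' hwk
    rcases h.classify hw (k := k) (by omega) (by omega) hwk with h1 | ⟨_, h1⟩ | ⟨_, h1⟩ | ⟨_, h1⟩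
    · exact h1
    · omega
    · omega
    · omega
  · intro w hw k hk hk' hwk f1 f2 f3
    rcases h.classify hw (k := k) (by omega) (by omega) hwk with h1 | ⟨h1, _⟩ | ⟨h1, _⟩ | ⟨h1, _⟩
    · exact h1
    · exact absurd ((h.a1u (6*τ) (by omega) (by omega)).2 (by omega)) (h1 ▸ f1)
    · exact absurd ((h.a2u (6*τ-3) (by omega) (by omega)).2 (by omega)) (h1 ▸ f2)
    · exact absurd ((h.a3u (6*τ-4) (by omega) (by omega)).2 (by omega)) (h1 ▸ f3)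

theorem Lab.main (h : Lab τ e X A1 A2 A3 Q L) (hτ : 100*(e+10) ≤ τ) :
    ∃ c : ℚ, 0 < c ∧ (∀ a, 1 ≤ a → a < 8*τ → ∃ n : ℤ, 1 ≤ n ∧ n < 8*τ ∧ X a = c * (n:ℚ)) ∧
      c * (8*τ) ∈ L ∧ A1 = c * (τ - 3/2) ∧ A2 = c * (τ + 3/2) ∧ A3 = c * (τ + 5/2) ∧
      Q = c * (7*τ - 3/2) := by
  have hC := h.core (by omega)
  obtain ⟨c, κ, hc, hκ1, hκ2, hap⟩ := hC.stepA hτ
  have hAD : AData τ e X c κ := ⟨hc, hκ1, hκ2, hap⟩
  obtain ⟨Θ, hΘ1, hΘ2, hΘ3⟩ := hC.B2 hτ hAD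
  have hTD : TData τ e X L c κ Θ := ⟨hAD, hΘ1, hΘ2, hΘ3⟩
  have hΘ := hC.Θeq hτ hTD
  subst hΘ
  have hS := hC.St2 hτ hTD
  have hk0 := hC.κnonneg hτ hTD
  -- F1
  have F1 : ∀ y : ℤ, 2 + κ ≤ y → y ≤ 8*τ - 1 + κ → ∃ a, 1 ≤ a ∧ a < 8*τ ∧ X a = c * (y:ℚ) := by
    intro y hy1 hy2
    rcases lt_or_ge y ((e:ℤ)+9+κ) with h1 | h1
    · obtain ⟨a, ha⟩ : ∃ a : ℕ, y = a + κ := ⟨(y - κ).toNat, by omega⟩
      refine ⟨a, by omega, by omega, ?_⟩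
      rw [hS.s1 a (by omega) (by omega), ha]
    · rcases lt_or_ge (8*(τ:ℤ) - ((e:ℤ)+9) + κ) y with h2 | h2
      · obtain ⟨a, ha⟩ : ∃ a : ℕ, y = a + κ := ⟨(y - κ).toNat, by omega⟩
        refine ⟨a, by omega, by omega, ?_⟩
        rw [hS.s2 a (by omega) (by omega), ha]
      · obtain ⟨a, ha1, ha2, ha3, _, _⟩ := hC.C1 hτ hTD y h1 h2
        exact ⟨a, by omega, by omega, ha3⟩
  -- F2
  have F2 : ∀ a, 1 ≤ a → a < 8*τ → ∃ y : ℤ, 1 ≤ y ∧ y ≤ 8*τ - 1 + κ ∧ X a = c * (y:ℚ) := by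
    intro a ha1 ha2
    rcases Nat.lt_or_ge a 2 with h1 | h1
    · obtain ⟨y, hy1, hy2, hy3⟩ := hS.s3 a ha1 h1
      exact ⟨y, hy1, by push_cast at hy2; omega, hy3⟩
    · rcases Nat.lt_or_ge a (e+9) with h2 | h2
      · exact ⟨_, by omega, by omega, hS.s1 a h1 (by omega)⟩
      · rcases Nat.lt_or_ge (8*τ) (a + (e+9)) with h3 | h3
        · exact ⟨_, by omega, by omega, hS.s2 a (by omega) (by omega)⟩
        · obtain ⟨y, hy1, hy2, hy3⟩ := hC.C1' hτ hTD a h2 h3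
          exact ⟨y, by omega, by omega, hy1⟩
  -- F3
  have F3 : ∀ f : ℕ, 4*τ + 3*e + 12 ≤ f → f + (e+9) ≤ 8*τ → X f = c * (((f:ℤ) + κ : ℤ):ℚ) := by
    intro f hf1 hf2
    have h1 := hC.B4 hτ hTD (8*τ - f) (by omega) (by omega)
    rw [show 8*τ - (8*τ - f) = f by omega] at h1
    rw [h1]
    congr 2
    omega
  -- D1
  have hD1 : ∀ y : ℤ, A1 = c * (y:ℚ) → 8*(τ:ℤ) + κ ≤ y := by
    intro y hy
    by_contra hcon
    push Not at hcon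
    have hy0 : 0 < y := by
      have := h.posA1
      rw [hy] at this
      have := (mul_pos_iff_of_pos_left hc).1 this
      exact_mod_cast this
    rcases le_or_gt y (1 + κ) with h1 | h1
    · have h2 := hTD.ap (4*τ - 3*e - 12) (by omega) (by omega)
      have h3 : ((4*τ - 3*e - 12 : ℕ) : ℤ) = 4*(τ:ℤ) - 3*e - 12 := by omega
      have h4 := hTD.full (y + ((4*τ - 3*e - 12 : ℕ) : ℤ) + κ) (by omega) (by omega)
      have h5 : A1 + X (4*τ - 3*e - 12) ∈ L := by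
        rw [hy, h2]
        convert h4 using 1
        push_cast; ring
      have := (h.a1u (4*τ - 3*e - 12) (by omega) (by omega)).1 h5
      omega
    · obtain ⟨a, ha1, ha2, ha3⟩ := F1 y (by omega) (by omega)
      exact h.neA1 a ha1 ha2 (by rw [ha3, hy])
  have hX3 := hS.s1 3 (by omega) (by omega)
  have hX4 := hS.s1 4 (by omega) (by omega)
  have hX6 := F3 (6*τ) (by omega) (by omega)
  have hw1 : A1 + X 3 ∈ L := (h.a1u 3 (by omega) (by omega)).2 (by omega)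
  have hw2 : A1 + X 4 ∈ L := (h.a1u 4 (by omega) (by omega)).2 (by omega)
  have hw6 : A1 + X (6*τ) ∈ L := (h.a1u (6*τ) (by omega) (by omega)).2 (by omega)
  obtain ⟨k, hk⟩ : ∃ k : ℕ, κ = k := ⟨κ.toNat, by omega⟩
  have hnot : ∀ z : ℕ, z ≤ 10 → ∀ a, 1 ≤ a → a < 8*τ → A1 + c * (((z:ℤ) + κ : ℤ):ℚ) ≠ X a := by
    intro z hz a ha1 ha2 heq
    obtain ⟨y, hy1, hy2, hy3⟩ := F2 a ha1 ha2
    rw [hy3] at heq
    have := hD1 (y - (z + κ)) (by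
      push_cast at heq ⊢
      linarith)
    omega
  -- second
  have hA3 : A1 + X 4 = A3 ∧ κ = 0 := by
    have hg := F3 (6*τ - 4 - k) (by omega) (by omega)
    have h1 : (A1 + X 4) + X (6*τ - 4 - k) ∈ L := by
      convert hw6 using 1
      rw [hX4, hg, hX6]
      have : ((6*τ - 4 - k : ℕ) : ℤ) = 6*(τ:ℤ) - 4 - κ := by omega
      rw [this]
      push_cast; ring
    rcases h.classify hw2 (k := 6*τ - 4 - k) (by omega) (by omega) h1 with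
      ⟨a, ha1, ha2, ha3⟩ | ⟨h2, _⟩ | ⟨_, h2⟩ | ⟨h2, h3⟩
    · rw [hX4] at ha3
      exact absurd ha3 (hnot 4 (by omega) a ha1 ha2)
    · exfalso
      have := h.pos 4 (by omega) (by omega)
      linarith
    · exfalso; omega
    · exact ⟨h2, by omega⟩
  obtain ⟨hA3, hκ0⟩ := hA3
  have hk0' : k = 0 := by omega
  have hA2 : A1 + X 3 = A2 := by
    have hg := F3 (6*τ - 3) (by omega) (by omega)
    have h1 : (A1 + X 3) + X (6*τ - 3) ∈ L := by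
      convert hw6 using 1
      rw [hX3, hg, hX6, hκ0]
      have : ((6*τ - 3 : ℕ) : ℤ) = 6*(τ:ℤ) - 3 := by omega
      rw [this]
      push_cast; ring
    rcases h.classify hw1 (k := 6*τ - 3) (by omega) (by omega) h1 with
      ⟨a, ha1, ha2, ha3⟩ | ⟨h2, _⟩ | ⟨h2, _⟩ | ⟨_, h2⟩
    · rw [hX3] at ha3
      exact absurd ha3 (hnot 3 (by omega) a ha1 ha2)
    · exfalso
      have := h.pos 3 (by omega) (by omega)
      linarith
    · exact h2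
    · exfalso; omega
  rw [hκ0] at hX3 hX4 hX6 hD1
  have hX3' : X 3 = c * 3 := by rw [hX3]; norm_num
  have hX4' : X 4 = c * 4 := by rw [hX4]; norm_num
  have hX6' : X (6*τ) = c * (6*τ) := by rw [hX6]; push_cast; ring
  have hX1 : X 1 = c := by
    obtain ⟨y, hy1, hy2, hy3⟩ := hS.s3 1 (by omega) (by omega)
    have : y = 1 := by push_cast at hy2; omega
    rw [hy3, this]; norm_num
  have hposA := h.posA1
  -- D2
  obtain ⟨n, hn1, hn2, hn⟩ : ∃ n : ℤ, 1 ≤ n ∧ n ≤ 8*τ - 1 ∧ A1 + A2 = c * (n:ℚ) := by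
    have h1 : (A1 + A2) + X 1 ∈ L := by
      convert h.a13 using 1
      rw [hX1, ← hA2, ← hA3, hX3', hX4']; ring
    rcases h.classify h.a12 (k := 1) (by omega) (by omega) h1 with
      ⟨a, ha1, ha2, ha3⟩ | ⟨_, h2⟩ | ⟨h2, _⟩ | ⟨_, h2⟩
    · obtain ⟨y, hy1, hy2, hy3⟩ := F2 a ha1 ha2
      exact ⟨y, hy1, by omega, by rw [ha3, hy3]⟩
    · omega
    · linarith
    · omega
  have h2A1 : 2 * A1 = c * ((n:ℚ) - 3) := by
    have : A1 + A2 = 2 * A1 + c * 3 := by rw [← hA2, hX3']; ring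
    linarith
  have hn4 : 4 ≤ n := by
    have h1 : 0 < c * ((n:ℚ) - 3) := by rw [← h2A1]; linarith
    have h2 := (mul_pos_iff_of_pos_left hc).1 h1
    have h3 : (3:ℚ) < n := by linarith
    have h4 : (3:ℤ) < n := by exact_mod_cast h3
    omega
  -- D3
  have hposQ := h.posQ
  obtain ⟨n', hn1', hn2', hn'⟩ : ∃ n' : ℤ, 1 ≤ n' ∧ n' ≤ 8*τ - 1 ∧ Q + A1 = c * (n':ℚ) := by
    have h1 : (Q + A1) + X 3 ∈ L := by
      convert h.q2 using 1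
      rw [← hA2]; ring
    rcases h.classify h.q1 (k := 3) (by omega) (by omega) h1 with
      ⟨a, ha1, ha2, ha3⟩ | ⟨h2, _⟩ | ⟨_, h2⟩ | ⟨_, h2⟩
    · obtain ⟨y, hy1, hy2, hy3⟩ := F2 a ha1 ha2
      exact ⟨y, hy1, by omega, by rw [ha3, hy3]⟩
    · linarith
    · omega
    · omega
  have hall : ∀ y : ℤ, 1 ≤ y → y ≤ 8*τ - 1 → ∃ a, 1 ≤ a ∧ a < 8*τ ∧ X a = c * (y:ℚ) := by
    intro y hy1 hy2
    rcases lt_or_ge y 2 with h1 | h1
    · have : y = 1 := by omega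
      exact ⟨1, le_refl _, by omega, by rw [hX1, this]; norm_num⟩
    · exact F1 y (by omega) (by omega)
  have hdiff : Q = A1 + c * ((n' - n + 3 : ℤ):ℚ) := by
    push_cast
    linarith
  have hQ6 : Q = A1 + c * (6*τ) := by
    rcases lt_trichotomy (n' - n + 3) 0 with h1 | h1 | h1
    · obtain ⟨a, ha1, ha2, ha3⟩ := hall (-(n' - n + 3)) (by omega) (by omega)
      exfalso
      apply h.qu a ha1 ha2
      convert h.memA1 using 1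
      rw [hdiff, ha3]; push_cast; ring
    · exfalso
      apply h.neQ1
      rw [hdiff, h1]; norm_num
    · obtain ⟨a, ha1, ha2, ha3⟩ := hall (n' - n + 3) (by omega) (by omega)
      have h2 : A1 + X a ∈ L := by
        rw [ha3, ← hdiff]; exact h.memQ
      rcases (h.a1u a ha1 ha2).1 h2 with h3 | h3 | h3
      · exfalso
        apply h.neQ2
        rw [hdiff, ← ha3, h3, hA2]
      · exfalso
        apply h.neQ3
        rw [hdiff, ← ha3, h3, hA3]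
      · rw [hdiff, ← ha3, h3, hX6']
  -- D4
  have hq2 : c * ((n + 6*τ : ℤ):ℚ) ∈ L := by
    convert h.q2 using 1
    rw [hQ6, ← hA2, hX3']
    push_cast
    linarith
  have hq3 : c * ((n + 6*τ + 1 : ℤ):ℚ) ∉ L := by
    convert h.q3 using 2
    rw [hQ6, ← hA3, hX4']
    push_cast
    linarith
  have hge : 2*(τ:ℤ) ≤ n := by
    by_contra hcon
    push Not at hcon
    exact hq3 (hTD.full _ (by omega) (by omega))
  have hle : n ≤ 2*(τ:ℤ) := by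
    by_contra hcon
    push Not at hcon
    have := hC.Cempty hτ hTD (n - 2*τ) (by omega) (by omega)
    apply this
    rw [hκ0]
    convert hq2 using 3
    ring
  have hnτ : n = 2*τ := le_antisymm hle hge
  have hA1f : A1 = c * ((τ:ℚ) - 3/2) := by
    have : 2 * A1 = 2 * (c * ((τ:ℚ) - 3/2)) := by
      rw [h2A1, hnτ]; push_cast; ring
    linarith
  refine ⟨c, hc, ?_, ?_, hA1f, ?_, ?_, ?_⟩
  · intro a ha1 ha2
    obtain ⟨y, hy1, hy2, hy3⟩ := F2 a ha1 ha2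
    exact ⟨y, hy1, by omega, hy3⟩
  · have := hTD.full (8*τ + 2*κ) (by omega) (le_refl _)
    convert this using 1
    rw [hκ0]; push_cast; ring
  · rw [← hA2, hX3', hA1f]; ring
  · rw [← hA3, hX4', hA1f]; ring
  · rw [hQ6, hA1f]; ring

end H43R3.SumG
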