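import Mathlib
import Pool.Agent.H43R3.SumG.StepD

/-!
The label set of the graphs, and the impossibility of a labelling of the disjoint union with one
extra label.
-/

set_option autoImplicit false

namespace H43R3.SumG

/-- the label set (in half units) -/
def inS (τ s : ℕ) : Prop :=
  (s % 2 = 0 ∧ 2 ≤ s ∧ s < 16*τ) ∨ s = 2*τ-3 ∨ s = 2*τ+3 ∨ s = 2*τ+5 ∨ s = 14*τ-3

/-- the label set together with the top label -/
def inT (τ s : ℕ) : Prop := inS τ s ∨ s = 16*τ

/-- Hypotheses on one side of a labelling. -/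
structure Side (τ : ℕ) (g : ℕ → ℚ) (L : Set ℚ) : Prop where
  pos : ∀ s, inS τ s → 0 < g s
  inj : ∀ s s', inS τ s → inS τ s' → g s = g s' → s = s'
  mem : ∀ s, inS τ s → g s ∈ L
  adj : ∀ s s', inS τ s → inS τ s' → s ≠ s' → (g s + g s' ∈ L ↔ inT τ (s + s'))
  dead : ∀ w ∈ L, (∀ s, inS τ s → w ≠ g s) → ∀ s, inS τ s → w + g s ∉ L

theorem Side.lab {τ e : ℕ} {g : ℕ → ℚ} {L : Set ℚ} (h : Side τ g L) (hτ : 10 ≤ τ)
    (hex : ∀ j, 1 ≤ j → j < 8*τ → ∀ S : Finset ℕ,
      (∀ i ∈ S, 1 ≤ i ∧ i < 8*τ ∧ i ≠ j ∧ g (2*i) + g (2*j) ∈ L ∧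
        ∀ a, 1 ≤ a → a < 8*τ → g (2*i) + g (2*j) ≠ g (2*a)) → S.card ≤ e) :
    Lab τ e (fun i => g (2*i)) (g (2*τ-3)) (g (2*τ+3)) (g (2*τ+5)) (g (14*τ-3)) L := by
  have hev : ∀ i, 1 ≤ i → i < 8*τ → inS τ (2*i) := by
    intro i hi hi'; unfold inS; omega
  have h1 : inS τ (2*τ-3) := by unfold inS; omega
  have h2 : inS τ (2*τ+3) := by unfold inS; omega
  have h3 : inS τ (2*τ+5) := by unfold inS; omega
  have h4 : inS τ (14*τ-3) := by unfold inS; omega
  refine
    { pos := fun i hi hi' => h.pos _ (hev i hi hi')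
      inj := ?_
      uu := ?_
      ex := hex
      posA1 := h.pos _ h1
      posQ := h.pos _ h4
      memA1 := h.mem _ h1
      memQ := h.mem _ h4
      neA1 := ?_
      neQ1 := ?_
      neQ2 := ?_
      neQ3 := ?_
      a1u := ?_
      a2u := ?_
      a3u := ?_
      qu := ?_
      a12 := ?_
      a13 := ?_
      q1 := ?_
      q2 := ?_
      q3 := ?_
      dead := ?_ }
  · intro i j hi hi' hj hj' heq
    have := h.inj _ _ (hev i hi hi') (hev j hj hj') heq
    omega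
  · intro i j hi hi' hj hj' hne
    rw [h.adj _ _ (hev i hi hi') (hev j hj hj') (by omega)]
    unfold inT inS; omega
  · intro i hi hi' heq
    have := h.inj _ _ (hev i hi hi') h1 heq
    omega
  · intro heq
    have := h.inj _ _ h4 h1 heq
    omega
  · intro heq
    have := h.inj _ _ h4 h2 heq
    omega
  · intro heq
    have := h.inj _ _ h4 h3 heq
    omega
  · intro i hi hi'
    rw [h.adj _ _ h1 (hev i hi hi') (by omega)]
    unfold inT inS; omega
  · intro i hi hi'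
    rw [h.adj _ _ h2 (hev i hi hi') (by omega)]
    unfold inT inS; omega
  · intro i hi hi'
    rw [h.adj _ _ h3 (hev i hi hi') (by omega)]
    unfold inT inS; omega
  · intro i hi hi'
    rw [h.adj _ _ h4 (hev i hi hi') (by omega)]
    unfold inT inS; omega
  · rw [h.adj _ _ h1 h2 (by omega)]
    unfold inT inS; omega
  · rw [h.adj _ _ h1 h3 (by omega)]
    unfold inT inS; omega
  · rw [h.adj _ _ h4 h1 (by omega)]
    unfold inT inS; omega
  · rw [h.adj _ _ h4 h2 (by omega)]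
    unfold inT inS; omega
  · rw [h.adj _ _ h4 h3 (by omega)]
    unfold inT inS; omega
  · intro w hw hX hw1 hw2 hw3 hw4 i hi hi'
    refine h.dead w hw ?_ _ (hev i hi hi')
    intro s hs
    rcases hs with hs | hs | hs | hs | hs
    · have := hX (s/2) (by omega) (by omega)
      rwa [show 2 * (s/2) = s by omega] at this
    · rw [hs]; exact hw1
    · rw [hs]; exact hw2
    · rw [hs]; exact hw3
    · rw [hs]; exact hw4

/-- Conclusion of rigidity, symmetric form. -/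
theorem Side.rigid {τ e : ℕ} {g : ℕ → ℚ} {L : Set ℚ} (h : Side τ g L) (hτ : 100*(e+10) ≤ τ)
    (hex : ∀ j, 1 ≤ j → j < 8*τ → ∀ S : Finset ℕ,
      (∀ i ∈ S, 1 ≤ i ∧ i < 8*τ ∧ i ≠ j ∧ g (2*i) + g (2*j) ∈ L ∧
        ∀ a, 1 ≤ a → a < 8*τ → g (2*i) + g (2*j) ≠ g (2*a)) → S.card ≤ e) :
    ∃ c : ℚ, 0 < c ∧ (∀ s, inS τ s → ∃ s', inS τ s' ∧ g s = c * s' ∧ (s % 2 = 0 → s' % 2 = 0)) ∧
      (∀ s', inS τ s' → ∃ s, inS τ s ∧ g s = c * s') ∧ c * (16*τ) ∈ L := by
  classical
  obtain ⟨c, hc, hev, htop, h1, h2, h3, h4⟩ := (h.lab (by omega) hex).main hτ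
  have hcast3 : ((2*τ-3 : ℕ):ℚ) = 2*(τ:ℚ) - 3 := by
    rw [Nat.cast_sub (by omega)]; push_cast; ring
  have hcast14 : ((14*τ-3 : ℕ):ℚ) = 14*(τ:ℚ) - 3 := by
    rw [Nat.cast_sub (by omega)]; push_cast; ring
  have e1 : g (2*τ-3) = c/2 * ((2*τ-3 : ℕ):ℚ) := by rw [h1, hcast3]; ring
  have e2 : g (2*τ+3) = c/2 * ((2*τ+3 : ℕ):ℚ) := by rw [h2]; push_cast; ring
  have e3 : g (2*τ+5) = c/2 * ((2*τ+5 : ℕ):ℚ) := by rw [h3]; push_cast; ring
  have e4 : g (14*τ-3) = c/2 * ((14*τ-3 : ℕ):ℚ) := by rw [h4, hcast14]; ring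
  choose! f hf using hev
  have hinjf : ∀ a ∈ Finset.Ico 1 (8*τ), ∀ b ∈ Finset.Ico 1 (8*τ),
      (f a).toNat = (f b).toNat → a = b := by
    intro a ha b hb heq
    rw [Finset.mem_Ico] at ha hb
    have h5 := hf a ha.1 ha.2
    have h6 := hf b hb.1 hb.2
    have h7 : f a = f b := by omega
    have := h.inj (2*a) (2*b) (by unfold inS; omega) (by unfold inS; omega)
      (by rw [h5.2.2, h6.2.2, h7])
    omega
  have himg : (Finset.Ico 1 (8*τ)).image (fun a => (f a).toNat) = Finset.Ico 1 (8*τ) := by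
    apply Finset.eq_of_subset_of_card_le
    · intro x hx
      rw [Finset.mem_image] at hx
      obtain ⟨a, ha, rfl⟩ := hx
      rw [Finset.mem_Ico] at ha ⊢
      have h5 := hf a ha.1 ha.2
      omega
    · rw [Finset.card_image_of_injOn]
      intro a ha b hb heq
      exact hinjf a ha b hb heq
  refine ⟨c/2, by linarith, ?_, ?_, ?_⟩
  · intro s hs
    rcases hs with hs | hs | hs | hs | hs
    · obtain ⟨a, ha⟩ : ∃ a, s = 2*a := ⟨s/2, by omega⟩
      have h5 := hf a (by omega) (by omega)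
      refine ⟨2*(f a).toNat, by unfold inS; omega, ?_, by omega⟩
      rw [ha, h5.2.2]
      have h6 : (((f a).toNat : ℤ)) = f a := Int.toNat_of_nonneg (by omega)
      have h7 : (((f a).toNat : ℕ):ℚ) = ((f a : ℤ):ℚ) := by exact_mod_cast h6
      push_cast
      rw [h7]; ring
    · exact ⟨s, by unfold inS; omega, by rw [hs, e1], by omega⟩
    · exact ⟨s, by unfold inS; omega, by rw [hs, e2], by omega⟩
    · exact ⟨s, by unfold inS; omega, by rw [hs, e3], by omega⟩
    · exact ⟨s, by unfold inS; omega, by rw [hs, e4], by omega⟩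
  · intro s hs
    rcases hs with hs | hs | hs | hs | hs
    · have h5 : s/2 ∈ (Finset.Ico 1 (8*τ)).image (fun a => (f a).toNat) := by
        rw [himg, Finset.mem_Ico]; omega
      rw [Finset.mem_image] at h5
      obtain ⟨a, ha, ha2⟩ := h5
      rw [Finset.mem_Ico] at ha
      have h6 := hf a ha.1 ha.2
      refine ⟨2*a, by unfold inS; omega, ?_⟩
      rw [h6.2.2]
      have h7 : 2 * f a = (s:ℤ) := by omega
      have h8 : 2 * ((f a : ℤ):ℚ) = (s:ℚ) := by exact_mod_cast h7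
      rw [← h8]; ring
    · exact ⟨s, by unfold inS; omega, by rw [hs, e1]⟩
    · exact ⟨s, by unfold inS; omega, by rw [hs, e2]⟩
    · exact ⟨s, by unfold inS; omega, by rw [hs, e3]⟩
    · exact ⟨s, by unfold inS; omega, by rw [hs, e4]⟩
  · convert htop using 1
    ring

end H43R3.SumG
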