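import Mathlib
import Pool.Agent.H43R3.SumG.Union2

/-!
The graphs and their sum numbers.
-/

set_option autoImplicit false

namespace H43R3.SumG

abbrev VV (τ : ℕ) : Type := {s : Fin (16*τ) // inS τ s.1}

def GG (τ : ℕ) : SimpleGraph (VV τ) where
  Adj a b := a ≠ b ∧ inT τ (a.1.1 + b.1.1)
  symm := ⟨fun a b h => ⟨h.1.symm, by rw [add_comm]; exact h.2⟩⟩
  loopless := ⟨fun _ h => h.1 rfl⟩

/-- `G` together with `r` isolated vertices is a sum graph. -/
def IsLab {V : Type} (G : SimpleGraph V) (r : ℕ) : Prop :=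
  ∃ f : V ⊕ Fin r → ℕ, Function.Injective f ∧ (∀ x, 0 < f x) ∧
    ∀ x y, x ≠ y →
      ((∃ u v, x = Sum.inl u ∧ y = Sum.inl v ∧ G.Adj u v) ↔ ∃ z, f x + f y = f z)

/-- the disjoint union of `G₁`, `G₂` and `r` isolated vertices is a sum graph. -/
def IsLabU {V W : Type} (G₁ : SimpleGraph V) (G₂ : SimpleGraph W) (r : ℕ) : Prop :=
  ∃ f : (V ⊕ W) ⊕ Fin r → ℕ, Function.Injective f ∧ (∀ x, 0 < f x) ∧
    ∀ x y, x ≠ y →
      (((∃ u v, x = Sum.inl (Sum.inl u) ∧ y = Sum.inl (Sum.inl v) ∧ G₁.Adj u v) ∨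
        (∃ u v, x = Sum.inl (Sum.inr u) ∧ y = Sum.inl (Sum.inr v) ∧ G₂.Adj u v)) ↔
        ∃ z, f x + f y = f z)

def mkv {τ : ℕ} (hτ : 10 ≤ τ) {s : ℕ} (h : inS τ s) : VV τ :=
  ⟨⟨s, by unfold inS at h; omega⟩, h⟩

theorem GG_nb {τ : ℕ} (hτ : 10 ≤ τ) (a : VV τ) : ∃ b, (GG τ).Adj a b := by
  obtain ⟨⟨s, hs'⟩, hs⟩ := a
  have key : ∃ s', inS τ s' ∧ s ≠ s' ∧ inT τ (s + s') := by
    have hs2 := hs
    simp only [inS] at hs2
    rcases hs2 with h | h | h | h | h
    · by_cases h2 : s = 2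
      · exact ⟨4, by unfold inS; omega, by omega, by unfold inT inS; omega⟩
      · exact ⟨2, by unfold inS; omega, by omega, by unfold inT inS; omega⟩
    · exact ⟨6, by unfold inS; omega, by omega, by unfold inT inS; omega⟩
    · exact ⟨2, by unfold inS; omega, by omega, by unfold inT inS; omega⟩
    · exact ⟨12*τ-8, by unfold inS; omega, by omega, by unfold inT inS; omega⟩
    · exact ⟨2*τ-3, by unfold inS; omega, by omega, by unfold inT inS; omega⟩
  obtain ⟨s', h1, h2, h3⟩ := key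
  refine ⟨mkv hτ h1, ?_, h3⟩
  intro heq
  apply h2
  have := congrArg (fun a => a.1.1) heq
  exact this

theorem not_lab_zero {V : Type} [Finite V] [Nonempty V] (G : SimpleGraph V)
    (hnb : ∀ v, ∃ w, G.Adj v w) : ¬ IsLab G 0 := by
  rintro ⟨f, _, hpos, hf⟩
  obtain ⟨v, hv⟩ := Finite.exists_max (fun v : V => f (Sum.inl v))
  obtain ⟨w, hw⟩ := hnb v
  obtain ⟨z, hz⟩ := (hf (Sum.inl v) (Sum.inl w) (by
    intro h; exact hw.ne (Sum.inl.inj h))).1 ⟨v, w, rfl, rfl, hw⟩
  rcases z with z | z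
  · have := hv z
    have := hpos (Sum.inl w)
    omega
  · exact z.elim0

theorem not_labU_zero {V W : Type} [Finite V] [Finite W] [Nonempty V] (G : SimpleGraph V)
    (H : SimpleGraph W) (hnb : ∀ v, ∃ w, G.Adj v w) (hnb' : ∀ v, ∃ w, H.Adj v w) :
    ¬ IsLabU G H 0 := by
  rintro ⟨f, _, hpos, hf⟩
  obtain ⟨v, hv⟩ := Finite.exists_max (fun v : V ⊕ W => f (Sum.inl v))
  rcases v with v | v
  · obtain ⟨w, hw⟩ := hnb v
    obtain ⟨z, hz⟩ := (hf (Sum.inl (Sum.inl v)) (Sum.inl (Sum.inl w)) (by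
      intro h; exact hw.ne (Sum.inl.inj (Sum.inl.inj h)))).1 (Or.inl ⟨v, w, rfl, rfl, hw⟩)
    rcases z with z | z
    · have := hv z
      have := hpos (Sum.inl (Sum.inl w))
      omega
    · exact z.elim0
  · obtain ⟨w, hw⟩ := hnb' v
    obtain ⟨z, hz⟩ := (hf (Sum.inl (Sum.inr v)) (Sum.inl (Sum.inr w)) (by
      intro h; exact hw.ne (Sum.inr.inj (Sum.inl.inj h)))).1 (Or.inr ⟨v, w, rfl, rfl, hw⟩)
    rcases z with z | z
    · have := hv z
      have := hpos (Sum.inl (Sum.inr w))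
      omega
    · exact z.elim0

theorem lab_one {τ : ℕ} (hτ : 10 ≤ τ) : IsLab (GG τ) 1 := by
  refine ⟨fun x => Sum.elim (fun a : VV τ => a.1.1) (fun _ => 16*τ) x, ?_, ?_, ?_⟩
  · rintro (⟨⟨a, ha⟩, ha'⟩ | i) (⟨⟨b, hb⟩, hb'⟩ | j) h
    · simp only [Sum.elim_inl] at h
      subst h; rfl
    · simp only [Sum.elim_inl, Sum.elim_inr] at h
      omega
    · simp only [Sum.elim_inl, Sum.elim_inr] at h
      omega
    · rw [Subsingleton.elim i j]
  · rintro (⟨⟨a, ha⟩, ha'⟩ | i)
    · simp only [Sum.elim_inl]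
      simp only [inS] at ha'
      omega
    · simp only [Sum.elim_inr]
      omega
  · rintro (⟨⟨a, ha⟩, ha'⟩ | i) (⟨⟨b, hb⟩, hb'⟩ | j) hne
    · constructor
      · rintro ⟨u, v, hu, hv, huv⟩
        have hu' := Sum.inl.inj hu
        have hv' := Sum.inl.inj hv
        subst hu'; subst hv'
        rcases huv.2 with h | h
        · exact ⟨Sum.inl (mkv hτ h), rfl⟩
        · exact ⟨Sum.inr 0, h⟩
      · rintro ⟨z, hz⟩
        refine ⟨_, _, rfl, rfl, ?_, ?_⟩
        · intro h; exact hne (by rw [h])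
        · rcases z with z | z
          · left
            have h1 : a + b = z.1.1 := hz
            show inS τ (a + b)
            rw [h1]; exact z.2
          · right; exact hz
    · constructor
      · rintro ⟨u, v, hu, hv, huv⟩
        exact absurd hv (by simp)
      · rintro ⟨z, hz⟩
        exfalso
        simp only [inS] at ha'
        rcases z with z | z
        · have h1 : a + 16*τ = z.1.1 := hz
          have := z.1.2
          omega
        · have h1 : a + 16*τ = 16*τ := hz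
          omega
    · constructor
      · rintro ⟨u, v, hu, hv, huv⟩
        exact absurd hu (by simp)
      · rintro ⟨z, hz⟩
        exfalso
        simp only [inS] at hb'
        rcases z with z | z
        · have h1 : 16*τ + b = z.1.1 := hz
          have := z.1.2
          omega
        · have h1 : 16*τ + b = 16*τ := hz
          omega
    · exact absurd (by rw [Subsingleton.elim i j]) hne

end H43R3.SumG
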