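import Mathlib
import Pool.Agent.H43R3.SumG.Graph

/-!
The disjoint union: one extra isolated vertex is not enough, two are.
-/

set_option autoImplicit false

namespace H43R3.SumG

theorem not_labU_one {τ1 τ2 : ℕ} (hτ2 : 2000 ≤ τ2) (h15 : 15 ∣ τ2)
    (hτ1 : 100*((16*τ2+5)+10) ≤ τ1) (hdiv : ∀ n, 1 ≤ n → n ≤ 16*τ2 → n ∣ τ1) :
    ¬ IsLabU (GG τ1) (GG τ2) 1 := by
  classical
  rintro ⟨f, finj, fpos, hf⟩
  have h1 : 10 ≤ τ1 := by omega
  have h2 : 10 ≤ τ2 := by omega
  obtain ⟨gA, hgA⟩ : ∃ g : ℕ → ℚ, ∀ s (h : inS τ1 s), g s = (f (Sum.inl (Sum.inl (mkv h1 h))) : ℚ) :=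
    ⟨fun s => if h : inS τ1 s then (f (Sum.inl (Sum.inl (mkv h1 h))) : ℚ) else 0,
      fun s h => dif_pos h⟩
  obtain ⟨gB, hgB⟩ : ∃ g : ℕ → ℚ, ∀ s (h : inS τ2 s), g s = (f (Sum.inl (Sum.inr (mkv h2 h))) : ℚ) :=
    ⟨fun s => if h : inS τ2 s then (f (Sum.inl (Sum.inr (mkv h2 h))) : ℚ) else 0,
      fun s h => dif_pos h⟩
  have sumL : ∀ x y, ((f x : ℚ) + f y ∈ Set.range (fun x => (f x : ℚ))) ↔ ∃ z, f x + f y = f z := by
    intro x y
    constructor
    · rintro ⟨z, hz⟩
      refine ⟨z, ?_⟩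
      have : (f z : ℚ) = f x + f y := hz
      exact_mod_cast this.symm
    · rintro ⟨z, hz⟩
      refine ⟨z, ?_⟩
      show (f z : ℚ) = f x + f y
      rw [← hz]; push_cast; rfl
  have mkA : ∀ {s s' : ℕ} (h : inS τ1 s) (h' : inS τ1 s'), mkv h1 h = mkv h1 h' → s = s' := by
    intro s s' h h' heq
    exact congrArg (fun a => a.1.1) heq
  have mkB : ∀ {s s' : ℕ} (h : inS τ2 s) (h' : inS τ2 s'), mkv h2 h = mkv h2 h' → s = s' := by
    intro s s' h h' heq
    exact congrArg (fun a => a.1.1) heq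
  refine union_false hτ2 h15 hτ1 hdiv (gA := gA) (gB := gB) (z := (f (Sum.inr 0) : ℚ))
    (L := Set.range (fun x => (f x : ℚ))) ?_ ?_ ?_ ?_ ?_ ?_ ?_ ?_ ?_ ?_ ?_
  · intro w
    constructor
    · rintro ⟨x, rfl⟩
      rcases x with (⟨⟨s, hs⟩, hs'⟩ | ⟨⟨s, hs⟩, hs'⟩) | i
      · left; exact ⟨s, hs', (hgA s hs').symm⟩
      · right; left; exact ⟨s, hs', (hgB s hs').symm⟩
      · right; right; rw [Subsingleton.elim i 0]
    · rintro (⟨s, hs, rfl⟩ | ⟨s, hs, rfl⟩ | rfl)
      · exact ⟨_, (hgA s hs).symm⟩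
      · exact ⟨_, (hgB s hs).symm⟩
      · exact ⟨_, rfl⟩
  · intro s hs
    rw [hgA s hs]; exact_mod_cast fpos _
  · intro s hs
    rw [hgB s hs]; exact_mod_cast fpos _
  · intro s s' hs hs' heq
    rw [hgA s hs, hgA s' hs'] at heq
    have h3 := finj (Nat.cast_injective heq)
    exact mkA _ _ (Sum.inl.inj (Sum.inl.inj h3))
  · intro s s' hs hs' heq
    rw [hgB s hs, hgB s' hs'] at heq
    have h3 := finj (Nat.cast_injective heq)
    exact mkB _ _ (Sum.inr.inj (Sum.inl.inj h3))
  · intro s s' hs hs' heq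
    rw [hgA s hs, hgB s' hs'] at heq
    have h3 := finj (Nat.cast_injective heq)
    exact absurd h3 (by simp)
  · intro s s' hs hs' hne
    rw [hgA s hs, hgA s' hs', sumL, ← hf _ _ (by
      intro h; exact hne (mkA hs hs' (Sum.inl.inj (Sum.inl.inj h))))]
    constructor
    · rintro (⟨u, v, hu, hv, huv⟩ | ⟨u, v, hu, hv, huv⟩)
      · have hu' := Sum.inl.inj (Sum.inl.inj hu)
        have hv' := Sum.inl.inj (Sum.inl.inj hv)
        subst hu'; subst hv'
        exact huv.2
      · exact absurd hu (by simp)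
    · intro h
      left
      exact ⟨_, _, rfl, rfl, fun h => hne (mkA hs hs' h), h⟩
  · intro s s' hs hs' hne
    rw [hgB s hs, hgB s' hs', sumL, ← hf _ _ (by
      intro h; exact hne (mkB hs hs' (Sum.inr.inj (Sum.inl.inj h))))]
    constructor
    · rintro (⟨u, v, hu, hv, huv⟩ | ⟨u, v, hu, hv, huv⟩)
      · exact absurd hu (by simp)
      · have hu' := Sum.inr.inj (Sum.inl.inj hu)
        have hv' := Sum.inr.inj (Sum.inl.inj hv)
        subst hu'; subst hv'
        exact huv.2
    · intro h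
      right
      exact ⟨_, _, rfl, rfl, fun h => hne (mkB hs hs' h), h⟩
  · intro s s' hs hs'
    rw [hgA s hs, hgB s' hs', sumL, ← hf _ _ (by simp)]
    rintro (⟨u, v, hu, hv, huv⟩ | ⟨u, v, hu, hv, huv⟩)
    · exact absurd hv (by simp)
    · exact absurd hu (by simp)
  · intro s hs
    rw [hgA s hs, sumL, ← hf _ _ (by simp)]
    rintro (⟨u, v, hu, hv, huv⟩ | ⟨u, v, hu, hv, huv⟩)
    · exact absurd hu (by simp)
    · exact absurd hu (by simp)
  · intro s hs
    rw [hgB s hs, sumL, ← hf _ _ (by simp)]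
    rintro (⟨u, v, hu, hv, huv⟩ | ⟨u, v, hu, hv, huv⟩)
    · exact absurd hu (by simp)
    · exact absurd hu (by simp)

/-- rearrangement of the vertex set -/
def ee {V W : Type} : (V ⊕ W) ⊕ Fin 2 → (V ⊕ Fin 1) ⊕ (W ⊕ Fin 1)
  | Sum.inl (Sum.inl v) => Sum.inl (Sum.inl v)
  | Sum.inl (Sum.inr w) => Sum.inr (Sum.inl w)
  | Sum.inr ⟨0, _⟩ => Sum.inl (Sum.inr 0)
  | Sum.inr ⟨_ + 1, _⟩ => Sum.inr (Sum.inr 0)

theorem ee_inj {V W : Type} : Function.Injective (ee (V := V) (W := W)) := by
  rintro ((v | w) | ⟨i, hi⟩) ((v' | w') | ⟨j, hj⟩) h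
  · simp only [ee, Sum.inl.injEq] at h
    rw [h]
  · simp [ee] at h
  · rcases j with _ | j <;> simp [ee] at h
  · simp [ee] at h
  · simp only [ee, Sum.inr.injEq, Sum.inl.injEq] at h
    rw [h]
  · rcases j with _ | j <;> simp [ee] at h
  · rcases i with _ | i <;> simp [ee] at h
  · rcases i with _ | i <;> simp [ee] at h
  · rcases i with _ | i <;> rcases j with _ | j
    · rfl
    · simp [ee] at h
    · simp [ee] at h
    · have h1 : i = 0 := by omega
      have h2 : j = 0 := by omega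
      subst h1; subst h2; rfl

theorem ee_surj {V W : Type} : Function.Surjective (ee (V := V) (W := W)) := by
  rintro ((v | i) | (w | i))
  · exact ⟨Sum.inl (Sum.inl v), rfl⟩
  · exact ⟨Sum.inr 0, by rw [Subsingleton.elim i 0]; rfl⟩
  · exact ⟨Sum.inl (Sum.inr w), rfl⟩
  · exact ⟨Sum.inr 1, by rw [Subsingleton.elim i 0]; rfl⟩

/-- The sum number of a disjoint union of two graphs of sum number one is at most two. -/
theorem labU_two {V W : Type} [Finite V] [Finite W] {G : SimpleGraph V} {H : SimpleGraph W}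
    (h1 : IsLab G 1) (h2 : IsLab H 1) : IsLabU G H 2 := by
  obtain ⟨f1, inj1, pos1, hf1⟩ := h1
  obtain ⟨f2, inj2, pos2, hf2⟩ := h2
  obtain ⟨M, hM⟩ : ∃ M, ∀ x, f1 x ≤ M := by
    obtain ⟨M, hM⟩ := (Set.finite_range f1).bddAbove
    exact ⟨M, fun x => hM ⟨x, rfl⟩⟩
  set F : (V ⊕ Fin 1) ⊕ (W ⊕ Fin 1) → ℕ := Sum.elim f1 (fun b => (2*M+1) * f2 b) with hF
  have hFl : ∀ p, F (Sum.inl p) = f1 p := fun p => rfl
  have hFr : ∀ p, F (Sum.inr p) = (2*M+1) * f2 p := fun p => rfl
  have key1 : ∀ p q : V ⊕ Fin 1, (∃ z, F (Sum.inl p) + F (Sum.inl q) = F z) ↔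
      ∃ z, f1 p + f1 q = f1 z := by
    intro p q
    constructor
    · rintro ⟨z | z, hz⟩
      · exact ⟨z, hz⟩
      · exfalso
        rw [hFl, hFl, hFr] at hz
        have h3 := hM p
        have h4 := hM q
        have h5 := pos2 z
        nlinarith
    · rintro ⟨z, hz⟩
      exact ⟨Sum.inl z, hz⟩
  have key2 : ∀ p q : W ⊕ Fin 1, (∃ z, F (Sum.inr p) + F (Sum.inr q) = F z) ↔
      ∃ z, f2 p + f2 q = f2 z := by
    intro p q
    constructor
    · rintro ⟨z | z, hz⟩
      · exfalso
        rw [hFl, hFr, hFr] at hz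
        have h3 := hM z
        have h4 := pos2 p
        have h5 := pos2 q
        nlinarith
      · refine ⟨z, ?_⟩
        rw [hFr, hFr, hFr, ← mul_add] at hz
        exact Nat.eq_of_mul_eq_mul_left (by omega) hz
    · rintro ⟨z, hz⟩
      refine ⟨Sum.inr z, ?_⟩
      rw [hFr, hFr, hFr, ← mul_add, hz]
  have key3 : ∀ p q, ¬ ∃ z, F (Sum.inl p) + F (Sum.inr q) = F z := by
    rintro p q ⟨z | z, hz⟩
    · rw [hFl, hFr, hFl] at hz
      have h3 := hM z
      have h4 := pos2 q
      nlinarith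
    · rw [hFl, hFr, hFr] at hz
      have h3 := hM p
      have h4 := pos1 p
      rcases Nat.lt_or_ge (f2 q) (f2 z) with h5 | h5
      · nlinarith
      · have h6 := Nat.mul_le_mul_left (2*M+1) h5
        omega
  have key4 : ∀ p q, ¬ ∃ z, F (Sum.inr p) + F (Sum.inl q) = F z := by
    intro p q
    rw [add_comm]
    exact key3 q p
  have hFinj : Function.Injective F := by
    rintro (p | p) (q | q) h
    · rw [inj1 h]
    · rw [hFl, hFr] at h
      exfalso
      have h3 := hM p
      have h4 := pos2 q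
      have h5 := pos1 p
      nlinarith
    · rw [hFl, hFr] at h
      exfalso
      have h3 := hM q
      have h4 := pos2 p
      have h5 := pos1 q
      nlinarith
    · rw [hFr, hFr] at h
      rw [inj2 (Nat.eq_of_mul_eq_mul_left (by omega) h)]
  have hsurj : ∀ a b, (∃ z, F (ee (V := V) (W := W) a) + F (ee b) = F (ee (V := V) (W := W) z)) ↔
      ∃ z, F (ee a) + F (ee b) = F z := by
    intro a b
    constructor
    · rintro ⟨z, hz⟩; exact ⟨_, hz⟩
    · rintro ⟨z, hz⟩
      obtain ⟨z', rfl⟩ := ee_surj z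
      exact ⟨z', hz⟩
  refine ⟨fun x => F (ee x), hFinj.comp ee_inj, ?_, ?_⟩
  · intro x
    show 0 < F (ee x)
    rcases ee x with p | p
    · exact pos1 p
    · rw [hFr]; have := pos2 p; positivity
  · intro x y hne
    show _ ↔ ∃ z, F (ee x) + F (ee y) = F (ee z)
    rw [hsurj]
    rcases x with (v | w) | ⟨i, hi⟩ <;> rcases y with (v' | w') | ⟨j, hj⟩
    · -- v v'
      simp only [ee]
      rw [key1, ← hf1 _ _ (by intro h; exact hne (by rw [Sum.inl.inj h]))]
      simp
    · simp only [ee]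
      have := key3 (Sum.inl v) (Sum.inl w')
      simp only [this, iff_false]
      simp
    · rcases j with _ | j
      · simp only [ee]
        rw [key1, ← hf1 _ _ (by simp)]
        simp
      · simp only [ee]
        have := key3 (Sum.inl v) (Sum.inr 0)
        simp only [this, iff_false]
        simp
    · simp only [ee]
      have := key4 (Sum.inl w) (Sum.inl v')
      simp only [this, iff_false]
      simp
    · simp only [ee]
      rw [key2, ← hf2 _ _ (by intro h; exact hne (by rw [Sum.inl.inj h]))]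
      simp
    · rcases j with _ | j
      · simp only [ee]
        have := key4 (Sum.inl w) (Sum.inr 0)
        simp only [this, iff_false]
        simp
      · simp only [ee]
        rw [key2, ← hf2 _ _ (by simp)]
        simp
    · rcases i with _ | i
      · simp only [ee]
        rw [key1, ← hf1 _ _ (by simp)]
        simp
      · simp only [ee]
        have := key4 (Sum.inr 0) (Sum.inl v')
        simp only [this, iff_false]
        simp
    · rcases i with _ | i
      · simp only [ee]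
        have := key3 (Sum.inr 0) (Sum.inl w')
        simp only [this, iff_false]
        simp
      · simp only [ee]
        rw [key2, ← hf2 _ _ (by simp)]
        simp
    · rcases i with _ | i <;> rcases j with _ | j
      · exact absurd rfl hne
      · simp only [ee]
        have := key3 (Sum.inr 0) (Sum.inr 0)
        simp only [this, iff_false]
        simp
      · simp only [ee]
        have := key4 (Sum.inr 0) (Sum.inr 0)
        simp only [this, iff_false]
        simp
      · exfalso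
        apply hne
        have h1 : i = 0 := by omega
        have h2 : j = 0 := by omega
        subst h1; subst h2; rfl

/-- Two graphs of sum number one whose disjoint union has sum number two. -/
theorem exists_pair : ∃ τ1 τ2 : ℕ, 10 ≤ τ1 ∧ 10 ≤ τ2 ∧ ¬ IsLabU (GG τ1) (GG τ2) 1 := by
  obtain ⟨τ2, hτ2, h15⟩ : ∃ τ2 : ℕ, 2000 ≤ τ2 ∧ 15 ∣ τ2 := ⟨3000, by norm_num, by norm_num⟩
  refine ⟨(16*τ2).factorial * (100*((16*τ2+5)+10)), τ2, ?_, by omega, ?_⟩
  · have := Nat.factorial_pos (16*τ2)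
    nlinarith
  · apply not_labU_one hτ2 h15
    · exact Nat.le_mul_of_pos_left _ (Nat.factorial_pos _)
    · intro n hn hn'
      exact Dvd.dvd.mul_right (Nat.dvd_factorial hn hn') _

end H43R3.SumG
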